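import Mathlib
import Pool.Agent.H75.TwoArm.Defs

set_option autoImplicit false
open Finset

/-! Four arms of the edge `{(0,0), (1,0)}` (label `(1,0)`): the East stack and the cross. -/

namespace Pool.Agent.H65.Four

open Pool.Agent.H75.Perc
open Pool.Agent.H75.TwoArm

/-- the box of radius `R` together with the row number `i` to the East of it, of length `4 w`, from
height `2 i w` to height `(2 i + 1) w` (labels) -/
noncomputable def ER (R w i : ℤ) : Finset (ℤ × ℤ) := BB R ∪ Bx R (R + 4 * w) (2 * i * w) (2 * i * w + w)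

/-- East stack: open arms of the two ends of the edge `(1,0)` (in some order) which end in the rows
`0` and `2`, dual arms of the two faces of the edge (in some order) which end in the rows `1` and
`3`. The edge itself is not used. -/
def ES (R w : ℤ) (ω : Finset (ℤ × ℤ)) : Prop :=
  ∃ a b f g q0 q1 q2 q3 : ℤ × ℤ,
    ((a = (0, 0) ∧ b = (1, 0)) ∨ (a = (1, 0) ∧ b = (0, 0))) ∧
    ((f = (1, 0) ∧ g = (1, 1)) ∨ (f = (1, 1) ∧ g = (1, 0))) ∧
    (q0.1 = R + 4 * w ∧ Co (ω.erase (1, 0) ∩ ER R w 0) a q0) ∧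
    (q1.1 = R + 4 * w ∧ Co (du (BB (R + 8 * w)) (insert (1, 0) ω) ∩ ER R w 1) f q1) ∧
    (q2.1 = R + 4 * w ∧ Co (ω.erase (1, 0) ∩ ER R w 2) b q2) ∧
    (q3.1 = R + 4 * w ∧ Co (du (BB (R + 8 * w)) (insert (1, 0) ω) ∩ ER R w 3) g q3)

/-- the box of radius `R` together with the corridor of width `2 w` and length `4 w` attached to the
middle of its East / North / West / South side (`i = 0, 1, 2, 3`) -/
noncomputable def CR (R w : ℤ) (i : Fin 4) : Finset (ℤ × ℤ) :=
  BB R ∪ ![Bx R (R + 4 * w) (-w) w, Bx (-w) w R (R + 4 * w), Bx (-R - 4 * w) (-R) (-w) w,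
    Bx (-w) w (-R - 4 * w) (-R)] i

/-- Cross: open arms of the two ends of the edge `(1,0)` (in some order) to the ends of the East and
West corridors, dual arms of the two faces of the edge (in some order) to the ends of the North and
South corridors. The edge itself is not used. -/
def CS (R w : ℤ) (ω : Finset (ℤ × ℤ)) : Prop :=
  ∃ a b f g q0 q1 q2 q3 : ℤ × ℤ,
    ((a = (0, 0) ∧ b = (1, 0)) ∨ (a = (1, 0) ∧ b = (0, 0))) ∧
    ((f = (1, 0) ∧ g = (1, 1)) ∨ (f = (1, 1) ∧ g = (1, 0))) ∧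
    (q0.1 = R + 4 * w ∧ Co (ω.erase (1, 0) ∩ CR R w 0) a q0) ∧
    (q1.2 = R + 4 * w ∧ Co (du (BB (R + 8 * w)) (insert (1, 0) ω) ∩ CR R w 1) f q1) ∧
    (q2.1 = -R - 4 * w ∧ Co (ω.erase (1, 0) ∩ CR R w 2) b q2) ∧
    (q3.2 = -R - 4 * w ∧ Co (du (BB (R + 8 * w)) (insert (1, 0) ω) ∩ CR R w 3) g q3)

end Pool.Agent.H65.Four
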