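import Mathlib
import Pool.Agent.H75.Perc.Prob

set_option autoImplicit false
open Finset

/-! Harris inequality for events which are increasing in some coordinates, decreasing in others and
arbitrary in the remaining ones. -/

namespace Pool.Agent.H65.Four

open Pool.Agent.H75.Perc

variable {α : Type*} [DecidableEq α]

lemma Pr_fub {E E0 : Finset α} (h : E0 ⊆ E) (P : Finset α → Prop) :
    Pr E P = (∑ ω0 ∈ E0.powerset, Pr (E \ E0) (fun ω' => P (ω0 ∪ ω'))) / 2 ^ E0.card := by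
  classical
  have hc : (E.powerset.filter P).card =
      ∑ ω0 ∈ E0.powerset, ((E \ E0).powerset.filter (fun ω' => P (ω0 ∪ ω'))).card := by
    rw [card_eq_sum_card_fiberwise (f := fun ω => ω ∩ E0) (t := E0.powerset)
      (fun ω _ => mem_coe.2 (mem_powerset.2 inter_subset_right))]
    apply sum_congr rfl
    intro ω0 hω0
    rw [mem_powerset] at hω0
    apply card_nbij' (fun ω => ω \ E0) (fun ω' => ω0 ∪ ω')
    · intro ω hω
      rw [mem_coe, mem_filter, mem_filter, mem_powerset] at hω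
      obtain ⟨⟨h1, h2⟩, h3⟩ := hω
      rw [mem_coe, mem_filter, mem_powerset]
      refine ⟨sdiff_subset_sdiff h1 (subset_refl _), ?_⟩
      have : ω0 ∪ ω \ E0 = ω := by
        rw [← h3]
        ext x
        rw [mem_union, mem_inter, mem_sdiff]
        tauto
      rw [this]; exact h2
    · intro ω' hω'
      rw [mem_coe, mem_filter, mem_powerset] at hω'
      obtain ⟨h1, h2⟩ := hω'
      rw [mem_coe, mem_filter, mem_filter, mem_powerset]
      refine ⟨⟨union_subset (hω0.trans h) (h1.trans sdiff_subset), h2⟩, ?_⟩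
      ext x
      rw [mem_inter, mem_union]
      constructor
      · rintro ⟨h3 | h3, h4⟩
        · exact h3
        · exact absurd h4 (mem_sdiff.1 (h1 h3)).2
      · intro h3; exact ⟨Or.inl h3, hω0 h3⟩
    · intro ω hω
      rw [mem_coe, mem_filter, mem_filter, mem_powerset] at hω
      obtain ⟨⟨h1, h2⟩, h3⟩ := hω
      simp only
      rw [← h3]
      ext x
      rw [mem_union, mem_inter, mem_sdiff]
      tauto
    · intro ω' hω'
      rw [mem_coe, mem_filter, mem_powerset] at hω'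
      simp only
      ext x
      rw [mem_sdiff, mem_union]
      constructor
      · rintro ⟨h3 | h3, h4⟩
        · exact absurd (hω0 h3) h4
        · exact h3
      · intro h3; exact ⟨Or.inr h3, (mem_sdiff.1 (hω'.1 h3)).2⟩
  have hcard : E.card = E0.card + (E \ E0).card := by
    rw [card_sdiff_of_subset h]
    have := card_le_card h
    omega
  rw [Pr_eq, hc, hcard, pow_add]
  push_cast
  simp_rw [Pr_eq]
  rw [← Finset.sum_div, div_div, mul_comm]

/-- flip the coordinates in `E2` -/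
def fl (E2 ω : Finset α) : Finset α := (ω \ E2) ∪ (E2 \ ω)

lemma mem_fl {E2 ω : Finset α} {x : α} : x ∈ fl E2 ω ↔ (x ∈ ω ∧ x ∉ E2) ∨ (x ∈ E2 ∧ x ∉ ω) := by
  unfold fl
  rw [mem_union, mem_sdiff, mem_sdiff]

lemma fl_fl (E2 ω : Finset α) : fl E2 (fl E2 ω) = ω := by
  ext x
  rw [mem_fl, mem_fl]
  tauto

lemma fl_sub {E E2 ω : Finset α} (h2 : E2 ⊆ E) (h : ω ⊆ E) : fl E2 ω ⊆ E := by
  intro x hx
  rw [mem_fl] at hx
  rcases hx with hx | hx
  · exact h hx.1
  · exact h2 hx.1

lemma Pr_fl {E E2 : Finset α} (h2 : E2 ⊆ E) (P : Finset α → Prop) :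
    Pr E (fun ω => P (fl E2 ω)) = Pr E P := by
  classical
  rw [Pr_eq, Pr_eq]
  congr 2
  apply card_nbij' (fun ω => fl E2 ω) (fun ω => fl E2 ω)
  · intro ω hω
    rw [mem_coe, mem_filter, mem_powerset] at hω ⊢
    exact ⟨fl_sub h2 hω.1, hω.2⟩
  · intro ω hω
    rw [mem_coe, mem_filter, mem_powerset] at hω ⊢
    refine ⟨fl_sub h2 hω.1, ?_⟩
    rw [fl_fl]; exact hω.2
  · intro ω _; exact fl_fl _ _
  · intro ω _; exact fl_fl _ _

/-- increasing in `E1`, decreasing in `E2` -/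
def MM (E E1 E2 : Finset α) (A : Finset α → Prop) : Prop :=
  ∀ ω ω₁, ω ⊆ E → ω₁ ⊆ E → (∀ e ∈ ω, e ∉ E2 → e ∈ ω₁) → (∀ e ∈ ω₁, e ∉ E1 → e ∈ ω) →
    A ω → A ω₁

theorem harris_mixed {E E1 E2 : Finset α} (h1 : E1 ⊆ E) (h2 : E2 ⊆ E) (hd : Disjoint E1 E2)
    {A M : Finset α → Prop} (hA : MM E E1 E2 A) (hM : MM E E1 E2 M)
    (hM' : ∀ ω ω₁, ω ⊆ E → ω₁ ⊆ E → (∀ e ∈ E1 ∪ E2, (e ∈ ω ↔ e ∈ ω₁)) → M ω → M ω₁) :
    Pr E A * Pr E M ≤ Pr E (fun ω => A ω ∧ M ω) := by
  classical
  rw [Finset.disjoint_left] at hd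
  set E' := E1 ∪ E2 with hE'
  have hE'E : E' ⊆ E := union_subset h1 h2
  set E0 := E \ E' with hE0
  have h0 : E0 ⊆ E := sdiff_subset
  have hEE : E \ E0 = E' := by
    rw [hE0, Finset.sdiff_sdiff_eq_self hE'E]
  -- Harris for fixed coordinates in `E0`
  have key : ∀ ω0 ⊆ E0, Pr E' (fun ω' => A (ω0 ∪ ω')) * Pr E' (fun ω' => M (ω0 ∪ ω')) ≤
      Pr E' (fun ω' => A (ω0 ∪ ω') ∧ M (ω0 ∪ ω')) := by
    intro ω0 hω0
    have hsub : ∀ ω' : Finset α, ω0 ∪ fl E2 (ω' ∩ E') ⊆ E := by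
      intro ω'
      exact union_subset (hω0.trans h0) ((fl_sub subset_union_right inter_subset_right).trans hE'E)
    have hinc : ∀ B : Finset α → Prop, MM E E1 E2 B →
        Inc (fun ω' => B (ω0 ∪ fl E2 (ω' ∩ E'))) := by
      intro B hB ω ω' hωω' hb
      refine hB _ _ (hsub ω) (hsub ω') ?_ ?_ hb
      · intro e he he2
        rw [mem_union, mem_fl, mem_inter] at he ⊢
        rcases he with he | ⟨⟨he1, he3⟩, -⟩ | ⟨he1, -⟩
        · exact Or.inl he
        · exact Or.inr (Or.inl ⟨⟨hωω' he1, he3⟩, he2⟩)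
        · exact absurd he1 he2
      · intro e he he1
        rw [mem_union, mem_fl, mem_inter] at he ⊢
        rcases he with he | ⟨⟨he3, he4⟩, he5⟩ | ⟨he3, he4⟩
        · exact Or.inl he
        · rw [hE', mem_union] at he4
          rcases he4 with h | h
          · exact absurd h he1
          · exact absurd h he5
        · refine Or.inr (Or.inr ⟨he3, fun h => he4 ?_⟩)
          exact ⟨hωω' h.1, h.2⟩
    have hval : ∀ B : Finset α → Prop, Pr E' (fun ω' => B (ω0 ∪ ω')) =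
        Pr E' (fun ω' => B (ω0 ∪ fl E2 (ω' ∩ E'))) := by
      intro B
      rw [← Pr_fl (E := E') (E2 := E2) subset_union_right (fun ω' => B (ω0 ∪ ω'))]
      apply Pr_congr
      intro ω hω
      rw [inter_eq_left.2 hω]
    rw [hval A, hval M, hval (fun ω => A ω ∧ M ω)]
    exact Pr_harris E' (hinc A hA) (hinc M hM)
  -- the probability of `M` does not depend on the coordinates in `E0`
  have hMc : ∀ ω0 ⊆ E0, Pr E' (fun ω' => M (ω0 ∪ ω')) = Pr E' M := by
    intro ω0 hω0
    have hdis : ∀ e ∈ E', e ∉ ω0 := fun e he h => (mem_sdiff.1 (hω0 h)).2 he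
    apply Pr_congr
    intro ω hω
    constructor
    · apply hM' _ _ (union_subset (hω0.trans h0) (hω.trans hE'E)) (hω.trans hE'E)
      intro e he
      rw [mem_union]
      exact ⟨fun h => h.resolve_left (hdis e he), Or.inr⟩
    · apply hM' _ _ (hω.trans hE'E) (union_subset (hω0.trans h0) (hω.trans hE'E))
      intro e he
      rw [mem_union]
      exact ⟨Or.inr, fun h => h.resolve_left (hdis e he)⟩
  have hpos : (0 : ℝ) < 2 ^ E0.card := by positivity
  have hPM : Pr E M = Pr E' M := by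
    rw [Pr_fub h0 M, hEE, sum_congr rfl (fun ω0 hω0 => hMc ω0 (mem_powerset.1 hω0)), sum_const,
      card_powerset, nsmul_eq_mul]
    push_cast
    field_simp
  rw [hPM, Pr_fub h0 A, Pr_fub h0 (fun ω => A ω ∧ M ω), hEE, div_mul_eq_mul_div]
  apply div_le_div_of_nonneg_right _ hpos.le
  rw [sum_mul]
  apply sum_le_sum
  intro ω0 hω0
  have := key ω0 (mem_powerset.1 hω0)
  rwa [hMc ω0 (mem_powerset.1 hω0)] at this

end Pool.Agent.H65.Four
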