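import Mathlib
import Pool.Agent.H63.Perc.Geo

set_option autoImplicit false

/-! Closed dual walks in `ℤ²` and the colouring of the vertices (parity). -/

namespace Pool.Agent.H65.Four

open Pool.Agent.H75.Perc
open Pool.Agent.H63.Perc (AdS CoS)

/-- the ray from the face `f` to the East -/
def rr (f e : ℤ × ℤ) : ℤ := if e.2 = 2 * f.2 - 1 ∧ 2 * f.1 ≤ e.1 then 1 else 0

lemma step_kap (g h : ℤ × ℤ) (hgh : IsUnit4 (h - g)) : ∃ K : ℤ × ℤ → ℤ, ∀ x y : ℤ × ℤ,
    IsUnit4 (y - x) →
    (x + y + (1, 1) = g + h → (K x + K y + rr g (x + y) + rr h (x + y)) % 2 = 1) ∧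
    (x + y + (1, 1) ≠ g + h → (K x + K y + rr g (x + y) + rr h (x + y)) % 2 = 0) := by
  have key : ∀ (x y : ℤ × ℤ), x + y + (1, 1) = g + h ↔
      (x.1 + y.1 + 1 = g.1 + h.1 ∧ x.2 + y.2 + 1 = g.2 + h.2) := by
    intro x y
    rw [Prod.ext_iff]
    simp only [Prod.fst_add, Prod.snd_add]
  have hu := unit_cases hgh
  by_cases hv : h.1 = g.1
  · -- vertical step
    set m : ℤ := min g.2 h.2 with hm
    refine ⟨fun z => if z.2 = m ∧ g.1 ≤ z.1 then 1 else 0, ?_⟩
    intro x y hxy
    have hu2 := unit_cases hxy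
    rw [Ne, key]
    simp only [rr, Prod.fst_add, Prod.snd_add]
    constructor
    · intro h1
      split_ifs <;> omega
    · intro h1
      split_ifs <;> omega
  · refine ⟨fun _ => 0, ?_⟩
    intro x y hxy
    have hu2 := unit_cases hxy
    rw [Ne, key]
    simp only [rr, Prod.fst_add, Prod.snd_add]
    constructor
    · intro h1
      split_ifs <;> omega
    · intro h1
      split_ifs <;> omega

lemma path_kap {Sd : Set (ℤ × ℤ)} {f g : ℤ × ℤ} (h : CoS Sd f g) : ∃ K : ℤ × ℤ → ℤ,
    ∀ x y : ℤ × ℤ, IsUnit4 (y - x) → x + y + (1, 1) ∉ Sd →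
      (K x + K y + rr f (x + y) + rr g (x + y)) % 2 = 0 := by
  induction h with
  | refl =>
    refine ⟨fun _ => 0, fun x y _ _ => ?_⟩
    show ((0 : ℤ) + 0 + rr f (x + y) + rr f (x + y)) % 2 = 0
    omega
  | @tail g h _ hgh ih =>
    obtain ⟨K, hK⟩ := ih
    obtain ⟨K', hK'⟩ := step_kap g h hgh.1
    refine ⟨fun z => K z + K' z, fun x y hxy hS => ?_⟩
    have h1 := hK x y hxy hS
    have h2 := (hK' x y hxy).2 (fun h => hS (by rw [h]; exact hgh.2))
    simp only
    omega

/-- **The colouring**: `f` and `g` are the two faces of the edge `u v`, both are connected to their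
translates by the period, off the translates of the edge. -/
theorem colour {Sd : Set (ℤ × ℤ)} {u v f g s : ℤ × ℤ} (huv : IsUnit4 (v - u))
    (hfg : IsUnit4 (g - f)) (he : u + v + (1, 1) = f + g) (hs : s ≠ 0)
    (hf : CoS Sd f (f + s)) (hg : CoS Sd g (g + s)) (h0 : f + g ∉ Sd)
    (h1 : f + g + (s + s) ∉ Sd) : ∃ χ : ℤ × ℤ → ℤ,
    (∀ x y : ℤ × ℤ, IsUnit4 (y - x) → x + y + (1, 1) ∉ Sd → x + y ≠ u + v →
      x + y ≠ u + v + (s + s) → (χ x + χ y) % 2 = 0) ∧
    (χ u + χ v) % 2 = 1 ∧ (χ (u + s) + χ (v + s)) % 2 = 1 := by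
  obtain ⟨K1, hK1⟩ := path_kap hf
  obtain ⟨K2, hK2⟩ := path_kap hg
  obtain ⟨K3, hK3⟩ := step_kap f g hfg
  have hfg' : IsUnit4 (g + s - (f + s)) := by
    rw [add_sub_add_right_eq_sub]; exact hfg
  obtain ⟨K4, hK4⟩ := step_kap (f + s) (g + s) hfg'
  have e4 : f + s + (g + s) = f + g + (s + s) := by abel
  have hss : s + s ≠ 0 := by
    intro h
    apply hs
    have h2 := congrArg Prod.fst h
    have h3 := congrArg Prod.snd h
    simp only [Prod.fst_add, Prod.snd_add, Prod.fst_zero, Prod.snd_zero] at h2 h3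
    exact Prod.ext (by simp only [Prod.fst_zero]; omega) (by simp only [Prod.snd_zero]; omega)
  refine ⟨fun z => K1 z + K2 z + K3 z + K4 z, ?_, ?_, ?_⟩
  · intro x y hxy hS h2 h3
    have a1 := hK1 x y hxy hS
    have a2 := hK2 x y hxy hS
    have a3 := (hK3 x y hxy).2 (fun h => h2 (by
      have : x + y + (1, 1) = u + v + (1, 1) := h.trans he.symm
      exact add_right_cancel this))
    have a4 := (hK4 x y hxy).2 (fun h => h3 (by
      rw [e4, ← he] at h
      have : x + y + (1, 1) = u + v + (s + s) + (1, 1) := by rw [h]; abel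
      exact add_right_cancel this))
    simp only
    omega
  · have a1 := hK1 u v huv (by rw [he]; exact h0)
    have a2 := hK2 u v huv (by rw [he]; exact h0)
    have a3 := (hK3 u v huv).1 he
    have a4 := (hK4 u v huv).2 (by
      rw [e4, he]
      intro h
      exact hss (by simpa using h.symm))
    simp only
    omega
  · have hus : IsUnit4 (v + s - (u + s)) := by rw [add_sub_add_right_eq_sub]; exact huv
    have e5 : u + s + (v + s) + (1, 1) = f + g + (s + s) := by rw [← he]; abel
    have a1 := hK1 (u + s) (v + s) hus (by rw [e5]; exact h1)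
    have a2 := hK2 (u + s) (v + s) hus (by rw [e5]; exact h1)
    have a3 := (hK3 (u + s) (v + s) hus).2 (by
      rw [e5]
      intro h
      exact hss (by simpa using h))
    have a4 := (hK4 (u + s) (v + s) hus).1 (by rw [e5, e4])
    simp only
    omega

lemma chain_par {c : ℤ → ℤ} (h : ∀ j, j ≠ 0 → j ≠ 1 → (c (j + 1) + c j) % 2 = 0)
    (h0 : (c 1 + c 0) % 2 = 1) (h1 : (c 2 + c 1) % 2 = 1) :
    ∀ j, j ≠ 1 → (c j + c 1) % 2 = 1 := by
  have hup : ∀ j, 2 ≤ j → (c j + c 1) % 2 = 1 := by
    intro j hj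
    induction j, hj using Int.leInduction with
    | base => exact h1
    | succ j hj ih =>
      have := h j (by omega) (by omega)
      omega
  have hdn : ∀ j, j ≤ 0 → (c j + c 1) % 2 = 1 := by
    intro j hj
    induction j, hj using Int.leInductionDown with
    | base => omega
    | pred j hj ih =>
      have := h (j - 1) (by omega) (by omega)
      rw [sub_add_cancel] at this
      omega
  intro j hj
  rcases le_or_gt 2 j with h2 | h2
  · exact hup j h2
  · exact hdn j (by omega)

lemma add00 (w : ℤ × ℤ) : w + ((0 : ℤ), (0 : ℤ)) = w := by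
  refine Prod.ext ?_ ?_ <;> simp

lemma CoS_shift_int {S : Set (ℤ × ℤ)} {n : ℤ} (hS : ∀ e, e ∈ S ↔ e + (2 * n, -(2 * n)) ∈ S)
    {u v : ℤ × ℤ} (h : CoS S u v) (m : ℤ) : CoS S (u + (m * n, -(m * n))) (v + (m * n, -(m * n))) := by
  have hS' : ∀ m : ℤ, ∀ e, e ∈ S ↔ e + (2 * (m * n), -(2 * (m * n))) ∈ S := by
    intro m
    induction m using Int.induction_on with
    | zero => intro e; simp [add00]
    | succ i ih =>
      intro e
      rw [ih e, hS]
      have : e + (2 * ((i : ℤ) * n), -(2 * ((i : ℤ) * n))) + (2 * n, -(2 * n)) =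
          e + (2 * (((i : ℤ) + 1) * n), -(2 * (((i : ℤ) + 1) * n))) := by
        refine Prod.ext ?_ ?_ <;> simp only [Prod.fst_add, Prod.snd_add] <;> ring
      rw [this]
    | pred i ih =>
      intro e
      rw [ih e, hS (e + (2 * ((-(i : ℤ) - 1) * n), -(2 * ((-(i : ℤ) - 1) * n))))]
      have : e + (2 * ((-(i : ℤ) - 1) * n), -(2 * ((-(i : ℤ) - 1) * n))) + (2 * n, -(2 * n)) =
          e + (2 * (-(i : ℤ) * n), -(2 * (-(i : ℤ) * n))) := by
        refine Prod.ext ?_ ?_ <;> simp only [Prod.fst_add, Prod.snd_add] <;> ring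
      rw [this]
  exact CoS.shift (fun e he => (hS' m e).1 he) h

/-- The two ends of the edge are not connected and do not wind. -/
theorem piv_core {So Sd : Set (ℤ × ℤ)} {n : ℤ} (hn : n ≠ 0) {u v f g : ℤ × ℤ}
    (huv : IsUnit4 (v - u)) (hfg : IsUnit4 (g - f)) (he : u + v + (1, 1) = f + g)
    (hSo : ∀ e, e ∈ So ↔ e + (2 * n, -(2 * n)) ∈ So) (hdis : ∀ x ∈ So, x + (1, 1) ∉ Sd)
    (heo : ∀ m : ℤ, u + v + (m * (2 * n), -(m * (2 * n))) ∉ So)
    (hed : ∀ m : ℤ, f + g + (m * (2 * n), -(m * (2 * n))) ∉ Sd)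
    (hf : CoS Sd f (f + (n, -n))) (hg : CoS Sd g (g + (n, -n)))
    (hc : CoS So u (v + (n, -n)) ∨ CoS So v (u + (n, -n))) :
    ¬ CoS So u v ∧ ∀ m : ℤ, m ≠ 0 → ¬ CoS So u (u + (m * n, -(m * n))) := by
  have hs : ((n, -n) : ℤ × ℤ) ≠ 0 := by
    intro h
    exact hn (congrArg Prod.fst h)
  have ess : ((n, -n) : ℤ × ℤ) + (n, -n) = (1 * (2 * n), -(1 * (2 * n))) := by
    refine Prod.ext ?_ ?_ <;> simp only [Prod.fst_add, Prod.snd_add] <;> ring
  obtain ⟨χ, h1, h2, h3⟩ := colour (Sd := Sd) (s := (n, -n)) huv hfg he hs hf hg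
    (by have := hed 0; simpa [add00] using this) (by rw [ess]; exact hed 1)
  have hconst : ∀ x y, CoS So x y → (χ x + χ y) % 2 = 0 := by
    intro x y hxy
    induction hxy with
    | refl => omega
    | @tail y z _ hyz ih =>
      have := h1 y z hyz.1 (hdis _ hyz.2) (fun h => heo 0 (by
        have h4 := hyz.2
        rw [h] at h4
        simpa [add00] using h4)) (fun h => heo 1 (by
        have h4 := hyz.2
        rw [h, ess] at h4
        exact h4))
      omega
  -- translates
  have hb : ∀ j : ℤ, j ≠ 0 → j ≠ 1 →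
      (χ (u + (j * n, -(j * n))) + χ (v + (j * n, -(j * n)))) % 2 = 0 := by
    intro j hj0 hj1
    have e1 : (u + (j * n, -(j * n))) + (v + (j * n, -(j * n))) + (1, 1) =
        f + g + (j * (2 * n), -(j * (2 * n))) := by
      rw [← he]
      refine Prod.ext ?_ ?_ <;> simp only [Prod.fst_add, Prod.snd_add] <;> ring
    have e2 : ∀ k : ℤ, (u + (j * n, -(j * n))) + (v + (j * n, -(j * n))) =
        u + v + (k * (2 * n), -(k * (2 * n))) → j = k := by
      intro k hk
      have := congrArg Prod.fst hk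
      simp only [Prod.fst_add] at this
      have h5 : (j - k) * n = 0 := by linarith
      rcases mul_eq_zero.1 h5 with h6 | h6
      · omega
      · exact absurd h6 hn
    refine h1 _ _ ?_ ?_ ?_ ?_
    · rw [add_sub_add_right_eq_sub]; exact huv
    · rw [e1]; exact hed j
    · intro h
      exact hj0 (e2 0 (by rw [h]; simp))
    · intro h
      exact hj1 (e2 1 (by rw [h, ess]))
  have e0 : ∀ w : ℤ × ℤ, w + ((0 : ℤ) * n, -((0 : ℤ) * n)) = w := by intro w; simp
  have e1 : ∀ w : ℤ × ℤ, w + ((1 : ℤ) * n, -((1 : ℤ) * n)) = w + (n, -n) := by intro w; simp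
  have hb0 : (χ (u + ((0 : ℤ) * n, -((0 : ℤ) * n))) +
      χ (v + ((0 : ℤ) * n, -((0 : ℤ) * n)))) % 2 = 1 := by rw [e0, e0]; exact h2
  have hb1 : (χ (u + ((1 : ℤ) * n, -((1 : ℤ) * n))) +
      χ (v + ((1 : ℤ) * n, -((1 : ℤ) * n)))) % 2 = 1 := by rw [e1, e1]; exact h3
  have esh : ∀ (w : ℤ × ℤ) (j : ℤ), w + (n, -n) + (j * n, -(j * n)) =
      w + ((j + 1) * n, -((j + 1) * n)) := by
    intro w j
    refine Prod.ext ?_ ?_ <;> simp only [Prod.fst_add, Prod.snd_add] <;> ring
  refine ⟨fun h => ?_, fun m hm h => ?_⟩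
  · have := hconst _ _ h
    omega
  · -- compare with the first translate
    have hm1 := hconst _ _ (CoS_shift_int hSo h 1)
    have e3 : u + (m * n, -(m * n)) + ((1 : ℤ) * n, -((1 : ℤ) * n)) =
        u + ((m + 1) * n, -((m + 1) * n)) := by
      refine Prod.ext ?_ ?_ <;> simp only [Prod.fst_add, Prod.snd_add] <;> ring
    rw [e3] at hm1
    have hm0 := hconst _ _ h
    rcases hc with hc | hc
    · have hcj : ∀ j : ℤ, (χ (u + (j * n, -(j * n))) +
          χ (v + ((j + 1) * n, -((j + 1) * n)))) % 2 = 0 := by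
        intro j
        have := hconst _ _ (CoS_shift_int hSo hc j)
        rwa [esh] at this
      have hch := chain_par (c := fun j => χ (v + (j * n, -(j * n)))) (by
          intro j hj0 hj1
          have a1 := hcj j
          have a2 := hb j hj0 hj1
          omega) (by
          have a1 := hcj 0
          simp only [zero_add] at a1
          omega) (by
          have a1 := hcj 1
          have e5 : (1 : ℤ) + 1 = 2 := by norm_num
          rw [e5] at a1
          omega) (m + 1) (by omega)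
      have a1 := hcj m
      have a2 := hcj 0
      simp only [zero_add] at a2
      rw [e0] at a2
      omega
    · have hcj : ∀ j : ℤ, (χ (v + (j * n, -(j * n))) +
          χ (u + ((j + 1) * n, -((j + 1) * n)))) % 2 = 0 := by
        intro j
        have := hconst _ _ (CoS_shift_int hSo hc j)
        rwa [esh] at this
      have hch := chain_par (c := fun j => χ (u + (j * n, -(j * n)))) (by
          intro j hj0 hj1
          have a1 := hcj j
          have a2 := hb j hj0 hj1
          omega) (by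
          have a1 := hcj 0
          simp only [zero_add] at a1
          omega) (by
          have a1 := hcj 1
          have e5 : (1 : ℤ) + 1 = 2 := by norm_num
          rw [e5] at a1
          omega) (m + 1) (by omega)
      omega

end Pool.Agent.H65.Four
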