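import Mathlib
import Pool.Agent.H65.Four.Topo
import Pool.Agent.H65.Two.Chain
import Pool.Agent.H63.Four.Gr

set_option autoImplicit false
open Finset

/-! From finite configurations of the cylinder to the pivotal event. -/

namespace Pool.Agent.H65.Four

open Pool.Agent.H75.Perc hiding BE BB UU UU_mix sh
open Pool.Agent.H63.Perc (AdS CoS rp EC mem_EC pull mem_pull pull_sub pull_mono rp_sum rp_inj
  rp_mem_EC rp_shift co_toS Pr_pull tr mem_tr coins_tr coins_mono)
open Pool.Agent.H63.Bulk (PB mem_PB PB_shift BConf bulkMeasure bulkGraph phB phB_inj phB_rp phB_val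
  bulk_adj BWinds)
open Pool.Agent.H63.Four (Rc sh nb ix upd Wd Piv upd_same upd_ne adj_iff nb_true nb_false)
open Pool.Agent.H65.Two (PD mem_PD PD_shift)

/-- both dual clusters of the faces of the edge `(1,0)` wind, and the open clusters of its two ends
are connected around the cylinder (without using the edge) -/
def W4 (n : ℤ) (E η : Finset (ℤ × ℤ)) : Prop :=
  (CoS (PB n (η.erase (1, 0))) (0, 0) ((1, 0) + (n, -n)) ∨
    CoS (PB n (η.erase (1, 0))) (1, 0) ((0, 0) + (n, -n))) ∧
  CoS (PD n E (insert (1, 0) η)) (1, 0) ((1, 0) + (n, -n)) ∧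
  CoS (PD n E (insert (1, 0) η)) (1, 1) ((1, 1) + (n, -n))

lemma CoS_mono {S T : Set (ℤ × ℤ)} (h : ∀ e ∈ S, e ∈ T) {u v : ℤ × ℤ} (huv : CoS S u v) :
    CoS T u v := by
  induction huv with
  | refl => exact Relation.ReflTransGen.refl
  | tail _ hab ih => exact ih.tail ⟨hab.1, h _ hab.2⟩

lemma phB_edge {n : ℕ} (u : ℤ × ℤ) (d : Bool) : phB n (u + nb u d) = ix n u d := by
  cases d
  · rw [nb_false]
    exact phB_val _ _ _ (by simp only [Prod.fst_add, Prod.snd_add]; omega)
      (by simp only [Prod.fst_add]; omega)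
      (by simp only [Prod.fst_add, Bool.false_eq_true, iff_false]; omega)
  · rw [nb_true]
    exact phB_val _ _ _ (by simp only [Prod.fst_add, Prod.snd_add]; omega)
      (by simp only [Prod.fst_add]; omega)
      (by simp only [Prod.fst_add, iff_true]; omega)

lemma phB_shift {n : ℕ} (e : ℤ × ℤ) : phB n (e + (2 * (n : ℤ), -(2 * (n : ℤ)))) = phB n e := by
  rw [← phB_rp, rp_shift, phB_rp]

lemma phB_shift_int {n : ℕ} (e : ℤ × ℤ) (m : ℤ) :
    phB n (e + (m * (2 * (n : ℤ)), -(m * (2 * (n : ℤ))))) = phB n e := by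
  induction m using Int.induction_on with
  | zero =>
    congr 1
    refine Prod.ext ?_ ?_ <;> simp
  | succ i ih =>
    rw [← ih, ← phB_shift (e + ((i : ℤ) * (2 * (n : ℤ)), -((i : ℤ) * (2 * (n : ℤ)))))]
    congr 1
    refine Prod.ext ?_ ?_ <;> simp only [Prod.fst_add, Prod.snd_add] <;> ring
  | pred i ih =>
    rw [← ih, ← phB_shift (e + ((-(i : ℤ) - 1) * (2 * (n : ℤ)), -((-(i : ℤ) - 1) * (2 * (n : ℤ)))))]
    congr 1
    refine Prod.ext ?_ ?_ <;> simp only [Prod.fst_add, Prod.snd_add] <;> ring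

/-- every step along a label is one of the edges -/
lemma step_edge {u v : ℤ × ℤ} (h : IsUnit4 (v - u)) : ∃ d, v = nb u d ∨ u = nb v d := by
  have := unit_cases h
  rcases this with ⟨a, b⟩ | ⟨a, b⟩ | ⟨a, b⟩ | ⟨a, b⟩
  · exact ⟨true, Or.inl (by rw [nb_true]; exact Prod.ext a b)⟩
  · exact ⟨false, Or.inl (by rw [nb_false]; exact Prod.ext a b)⟩
  · exact ⟨true, Or.inr (by rw [nb_true]; exact Prod.ext (by simp only; omega) b.symm)⟩
  · exact ⟨false, Or.inr (by rw [nb_false]; exact Prod.ext a.symm (by simp only; omega))⟩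

theorem piv_of_W4 {n : ℕ} {L : ℤ} (hn : 1 ≤ n) (hL : 1 ≤ L) {ω : BConf n}
    (h : W4 n (EC n L) (tr (EC n L) (phB n) ω)) : Piv n (0, 0) true ω := by
  obtain ⟨hc, hf, hg⟩ := h
  set i0 := ix n (0, 0) true with hi0
  set ω' := upd n ω i0 false with hω'
  have hi0' : phB n ((1, 0) : ℤ × ℤ) = i0 := by
    have := phB_edge (n := n) (0, 0) true
    rw [nb_true] at this
    simpa using this
  have he0 : ((1, 0) : ℤ × ℤ) ∈ EC n L := by
    rw [mem_EC]
    simp only
    omega
  have hinj := phB_inj n L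
  have hne : ∀ e ∈ EC n L, e ≠ (1, 0) → phB n e ≠ i0 := by
    intro e he h1 h2
    rw [← hi0'] at h2
    exact h1 (hinj (mem_coe.2 he) (mem_coe.2 he0) h2)
  set So : Set (ℤ × ℤ) := {e | (e.1 + e.2) % 2 = 1 ∧ ω' (phB n e) = true} with hSo
  set Sd : Set (ℤ × ℤ) := {x | ω' (phB n (x - (1, 1))) = false ∧ phB n (x - (1, 1)) ≠ i0} with hSd
  -- the finite sets are contained in these
  have hsubo : ∀ e ∈ PB n ((tr (EC n L) (phB n) ω).erase (1, 0)), e ∈ So := by
    intro e he
    rw [mem_PB, mem_erase, mem_tr] at he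
    obtain ⟨h1, h2, h3⟩ := he
    have h4 := mem_EC.1 h2
    have h5 := rp_sum (n : ℤ) e
    refine ⟨by omega, ?_⟩
    rw [hω', upd_ne]
    · rw [← phB_rp]; exact h3
    · rw [← phB_rp]; exact hne _ h2 h1
  have hsubd : ∀ x ∈ PD n (EC n L) (insert (1, 0) (tr (EC n L) (phB n) ω)), x ∈ Sd := by
    intro x hx
    rw [mem_PD, mem_insert, mem_tr] at hx
    obtain ⟨h1, h2⟩ := hx
    have h3 : phB n (x - (1, 1)) ≠ i0 := by
      rw [← phB_rp]; exact hne _ h1 (fun h => h2 (Or.inl h))
    refine ⟨?_, h3⟩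
    rw [hω', upd_ne _ _ h3, ← phB_rp]
    by_contra h4
    exact h2 (Or.inr ⟨h1, by simpa using h4⟩)
  -- graph
  have hRS : ∀ x y, Rc n ω' x y → CoS So x y := by
    intro x y hxy
    unfold Rc at hxy
    rw [SimpleGraph.reachable_iff_reflTransGen] at hxy
    induction hxy with
    | refl => exact Relation.ReflTransGen.refl
    | @tail y z _ hyz ih =>
      refine ih.tail ?_
      obtain ⟨d, ⟨rfl, h2⟩ | ⟨rfl, h2⟩⟩ := (adj_iff ω' _ _).1 hyz
      · refine ⟨?_, ?_, ?_⟩
        · unfold IsUnit4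
          cases d
          · rw [nb_false]; right; left; refine Prod.ext ?_ ?_ <;> simp
          · rw [nb_true]; left; refine Prod.ext ?_ ?_ <;> simp
        · cases d
          · rw [nb_false]; simp only [Prod.fst_add, Prod.snd_add]; omega
          · rw [nb_true]; simp only [Prod.fst_add, Prod.snd_add]; omega
        · rw [phB_edge]; exact h2
      · refine ⟨?_, ?_, ?_⟩
        · unfold IsUnit4
          cases d
          · rw [nb_false]; right; right; right; refine Prod.ext ?_ ?_ <;> simp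
          · rw [nb_true]; right; right; left; refine Prod.ext ?_ ?_ <;> simp
        · cases d
          · rw [nb_false]; simp only [Prod.fst_add, Prod.snd_add]; omega
          · rw [nb_true]; simp only [Prod.fst_add, Prod.snd_add]; omega
        · rw [add_comm, phB_edge]; exact h2
  have hSR : ∀ x y, CoS So x y → Rc n ω' x y := by
    intro x y hxy
    induction hxy with
    | refl => exact Rc.refl _ _
    | @tail y z _ hyz ih =>
      refine ih.trans ?_
      obtain ⟨d, h1 | h1⟩ := step_edge hyz.1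
      · subst h1
        have h2 := hyz.2.2
        rw [phB_edge] at h2
        exact Rc.edge h2
      · subst h1
        have h2 := hyz.2.2
        rw [add_comm, phB_edge] at h2
        exact (Rc.edge h2).symm
  have hc' : CoS So (0, 0) ((1, 0) + ((n : ℤ), -(n : ℤ))) ∨
      CoS So (1, 0) ((0, 0) + ((n : ℤ), -(n : ℤ))) := by
    rcases hc with hc | hc
    · exact Or.inl (CoS_mono hsubo hc)
    · exact Or.inr (CoS_mono hsubo hc)
  have hcore := piv_core (So := So) (Sd := Sd) (n := (n : ℤ)) (by omega)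
    (u := (0, 0)) (v := (1, 0)) (f := (1, 0)) (g := (1, 1))
    (by unfold IsUnit4; left; simp) (by unfold IsUnit4; right; left; simp) (by simp) (by
      intro e
      simp only [hSo, Set.mem_ofPred_eq, phB_shift, Prod.fst_add, Prod.snd_add]
      constructor
      · rintro ⟨h1, h2⟩; exact ⟨by omega, h2⟩
      · rintro ⟨h1, h2⟩; exact ⟨by omega, h2⟩) (by
      intro x hx hx'
      have h1 := hx'.1
      rw [add_sub_cancel_right] at h1
      rw [hx.2] at h1
      exact absurd h1 (by decide)) (by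
      intro m hm
      have h1 := hm.2
      have e1 : (((0, 0) : ℤ × ℤ) + (1, 0)) = (1, 0) := by simp
      rw [e1, phB_shift_int, hi0', hω', upd_same] at h1
      exact absurd h1 (by decide)) (by
      intro m hm
      apply hm.2
      have e1 : ((1, 0) : ℤ × ℤ) + (1, 1) + (m * (2 * (n : ℤ)), -(m * (2 * (n : ℤ)))) - (1, 1) =
          (1, 0) + (m * (2 * (n : ℤ)), -(m * (2 * (n : ℤ)))) := by abel
      rw [e1, phB_shift_int, hi0']) (CoS_mono hsubd hf) (CoS_mono hsubd hg) hc'
  have e1 : nb (0, 0) true = ((1, 0) : ℤ × ℤ) := by rw [nb_true]; simp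
  refine ⟨?_, ?_, ?_⟩
  · rw [e1]
    exact fun h => hcore.1 (hRS _ _ h)
  · rw [e1]
    rcases hc' with hc' | hc'
    · refine ⟨1, one_ne_zero, ?_⟩
      have := hSR _ _ hc'
      have e2 : sh n 1 ((1, 0) : ℤ × ℤ) = (1, 0) + ((n : ℤ), -(n : ℤ)) := by
        unfold sh
        refine Prod.ext ?_ ?_ <;> simp
      rw [e2]; exact this
    · refine ⟨-1, by norm_num, ?_⟩
      have h1 := hSR _ _ hc'
      have e2 : ((0, 0) : ℤ × ℤ) + ((n : ℤ), -(n : ℤ)) = sh n 1 (0, 0) := by
        unfold sh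
        refine Prod.ext ?_ ?_ <;> simp
      rw [e2] at h1
      have h2 := h1.shift (-1)
      rw [Pool.Agent.H63.Four.sh_neg] at h2
      exact h2.symm
  · rintro ⟨m, hm, h1⟩
    refine hcore.2 m hm ?_
    have h2 := hRS _ _ h1
    have e2 : sh n m ((0, 0) : ℤ × ℤ) = (0, 0) + (m * (n : ℤ), -(m * (n : ℤ))) := by
      unfold sh
      refine Prod.ext ?_ ?_ <;> simp
    rw [e2] at h2
    exact h2

end Pool.Agent.H65.Four
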