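import Mathlib
import Pool.Agent.H65.Four.Defs
import Pool.Agent.H65.Four.Trans
import Pool.Agent.H65.Four.Harris
import Pool.Agent.H65.Two.Glue

set_option autoImplicit false
open Finset

/-! The macroscopic net on the cylinder: from the cross to the pivotal event. -/

namespace Pool.Agent.H65.Four

open Pool.Agent.H75.Perc hiding BE BB UU UU_mix sh
open Pool.Agent.H75.TwoArm
open Pool.Agent.H75.TwoArm.CorrAux (mem_du')
open Pool.Agent.H63.Perc (AdS CoS rp EC mem_EC pull mem_pull pull_sub pull_mono rp_sum rp_inj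
  rp_mem_EC rp_shift co_toS Pr_pull tr mem_tr coins_tr coins_mono)
open Pool.Agent.H63.Bulk (PB mem_PB PB_shift BConf bulkMeasure phB phB_inj)
open Pool.Agent.H65.Two

/-! ### the rectangles -/

/-- open rectangles -/
def oc (R w : ℤ) (k : ℕ) : Rc :=
  if k = 0 then (false, R + 1, R + 4 * w, -w, w)
  else if k = 1 then (true, R + 1, 12 * R, -w, w)
  else if k = 2 then (false, -R - 4 * w, -R - 1, -w, w)
  else if k = 3 then (true, -(12 * R), -R - 1, -w, w)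
  else if k = 4 then (false, -(12 * R), -(4 * R), -R, 18 * R)
  else if k < 11 then (false, 4 * R + 8 * R * ((k - 5 : ℕ) : ℤ), 12 * R + 8 * R * ((k - 5 : ℕ) : ℤ),
    -(15 * R) - 8 * R * ((k - 5 : ℕ) : ℤ), R - 8 * R * ((k - 5 : ℕ) : ℤ))
  else (true, 4 * R + 8 * R * ((k - 11 : ℕ) : ℤ), 20 * R + 8 * R * ((k - 11 : ℕ) : ℤ),
    -(15 * R) - 8 * R * ((k - 11 : ℕ) : ℤ), -(7 * R) - 8 * R * ((k - 11 : ℕ) : ℤ))

/-- dual rectangles -/
def dc (R w : ℤ) (k : ℕ) : Rc :=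
  if k = 0 then (true, -w, w, R + 1, R + 4 * w)
  else if k = 1 then (false, -w, w, R + 1, 32 * R)
  else if k = 2 then (true, -w, w, -R - 4 * w, -R - 1)
  else if k = 3 then (false, -w, w, -(32 * R), -R - 1)
  else if k < 12 then (true, -(8 * R) + 8 * R * ((k - 4 : ℕ) : ℤ), 8 * R + 8 * R * ((k - 4 : ℕ) : ℤ),
    24 * R - 8 * R * ((k - 4 : ℕ) : ℤ), 24 * R + 8 * R - 8 * R * ((k - 4 : ℕ) : ℤ))
  else if k < 20 then (false, 8 * R * ((k - 12 : ℕ) : ℤ), 8 * R + 8 * R * ((k - 12 : ℕ) : ℤ),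
    24 * R - 8 * R - 8 * R * ((k - 12 : ℕ) : ℤ), 24 * R + 8 * R - 8 * R * ((k - 12 : ℕ) : ℤ))
  else if k < 28 then (true, -(8 * R) + 8 * R * ((k - 20 : ℕ) : ℤ),
    8 * R + 8 * R * ((k - 20 : ℕ) : ℤ),
    -(32 * R) - 8 * R * ((k - 20 : ℕ) : ℤ), -(32 * R) + 8 * R - 8 * R * ((k - 20 : ℕ) : ℤ))
  else (false, 8 * R * ((k - 28 : ℕ) : ℤ), 8 * R + 8 * R * ((k - 28 : ℕ) : ℤ),
    -(32 * R) - 8 * R - 8 * R * ((k - 28 : ℕ) : ℤ), -(32 * R) + 8 * R - 8 * R * ((k - 28 : ℕ) : ℤ))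

lemma oc_geo {R w : ℤ} (hw : 1 ≤ w) (hR : 16 * w ≤ R) (k : ℕ) (hk : k < 17) :
    (oc R w k).2.2.1 - (oc R w k).2.1 < 64 * R ∧
    -(90 * R) + 2 ≤ 2 * (oc R w k).2.1 + 2 * (oc R w k).2.2.2.1 ∧
    2 * (oc R w k).2.2.1 + 2 * (oc R w k).2.2.2.2 ≤ 90 * R ∧
    ((oc R w k).1 = true →
      0 ≤ (oc R w k).2.2.1 - (oc R w k).2.1 ∧
      (oc R w k).2.2.1 - (oc R w k).2.1 ≤ 40 * R ∧
      w ≤ (oc R w k).2.2.2.2 - (oc R w k).2.2.2.1) ∧
    ((oc R w k).1 = false →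
      0 ≤ (oc R w k).2.2.2.2 - (oc R w k).2.2.2.1 ∧
      (oc R w k).2.2.2.2 - (oc R w k).2.2.2.1 ≤ 40 * R ∧
      w ≤ (oc R w k).2.2.1 - (oc R w k).2.1) := by
  interval_cases k <;> simp [oc] <;> omega

lemma dc_geo {R w : ℤ} (hw : 1 ≤ w) (hR : 16 * w ≤ R) (k : ℕ) (hk : k < 36) :
    (dc R w k).2.2.1 - (dc R w k).2.1 < 64 * R ∧
    -(90 * R) + 2 ≤ 2 * (dc R w k).2.1 + 2 * (dc R w k).2.2.2.1 ∧
    2 * (dc R w k).2.2.1 + 2 * (dc R w k).2.2.2.2 ≤ 90 * R ∧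
    ((dc R w k).1 = true →
      0 ≤ (dc R w k).2.2.1 - (dc R w k).2.1 ∧
      (dc R w k).2.2.1 - (dc R w k).2.1 ≤ 40 * R ∧
      w ≤ (dc R w k).2.2.2.2 - (dc R w k).2.2.2.1) ∧
    ((dc R w k).1 = false →
      0 ≤ (dc R w k).2.2.2.2 - (dc R w k).2.2.2.1 ∧
      (dc R w k).2.2.2.2 - (dc R w k).2.2.2.1 ≤ 40 * R ∧
      w ≤ (dc R w k).2.2.1 - (dc R w k).2.1) := by
  interval_cases k <;> simp [dc] <;> omega

/-! ### zones -/

def Zo (R : ℤ) (e : ℤ × ℤ) : Prop :=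
  (-(28 * R) ≤ e.1 + e.2 ∧ e.1 + e.2 ≤ 28 * R) ∧
    ((2 * R + 2 ≤ e.1 ∧ e.1 ≤ 126 * R - 2) ∨ (-(126 * R - 2) ≤ e.1 ∧ e.1 ≤ -(2 * R + 2)))

def Zd (R w : ℤ) (e : ℤ × ℤ) : Prop :=
  ((-(2 * w + 2) ≤ e.1 ∧ e.1 ≤ 2 * w) ∧ (2 * R + 1 ≤ e.2 ∨ e.2 ≤ -(2 * R + 1))) ∨
    30 * R ≤ e.1 + e.2 ∨ e.1 + e.2 ≤ -(30 * R)

open Classical in
noncomputable def EW (R : ℤ) (Z : ℤ × ℤ → Prop) : Finset (ℤ × ℤ) :=
  (EC (64 * R) (90 * R)).filter (fun e => ∃ e', rp (64 * R) e' = e ∧ Z e')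

lemma mem_EW {R : ℤ} {Z : ℤ × ℤ → Prop} {e : ℤ × ℤ} :
    e ∈ EW R Z ↔ e ∈ EC (64 * R) (90 * R) ∧ ∃ e', rp (64 * R) e' = e ∧ Z e' := by
  classical
  unfold EW
  rw [mem_filter]

lemma EW_sub (R : ℤ) (Z : ℤ × ℤ → Prop) : EW R Z ⊆ EC (64 * R) (90 * R) :=
  fun _ h => (mem_EW.1 h).1

lemma rp_eq {n : ℤ} {e1 e2 : ℤ × ℤ} (h : rp n e1 = rp n e2) (h1 : e1.1 - e2.1 < 2 * n)
    (h2 : e2.1 - e1.1 < 2 * n) : e1 = e2 := by
  refine rp_inj (n := n) (F := {e1, e2}) ?_ (by simp) (by simp) h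
  intro y hy y' hy'
  rw [mem_insert, mem_singleton] at hy hy'
  rcases hy with rfl | rfl <;> rcases hy' with rfl | rfl <;> omega

lemma EW_disj {R w : ℤ} (hw : 1 ≤ w) (hR : 16 * w ≤ R) :
    Disjoint (EW R (Zo R)) (EW R (Zd R w)) := by
  rw [Finset.disjoint_left]
  intro e he he'
  rw [mem_EW] at he he'
  obtain ⟨-, e1, g1, g2⟩ := he
  obtain ⟨-, e2, g3, g4⟩ := he'
  have k1 := rp_sum (64 * R) e1
  have k2 := rp_sum (64 * R) e2
  rw [g1] at k1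
  rw [g3] at k2
  unfold Zo at g2
  unfold Zd at g4
  rcases g4 with g4 | g4 | g4
  · have h5 := rp_eq (g1.trans g3.symm) (by omega) (by omega)
    rw [h5] at g2
    omega
  · omega
  · omega

lemma EW_mem {R : ℤ} {Z : ℤ × ℤ → Prop} (hR : 1 ≤ R) {e : ℤ × ℤ} (h1 : -(90 * R) ≤ e.1 + e.2)
    (h2 : e.1 + e.2 ≤ 90 * R) (h3 : (e.1 + e.2) % 2 = 1) (h : Z e) : rp (64 * R) e ∈ EW R Z := by
  rw [mem_EW]
  exact ⟨rp_mem_EC (by omega) h1 h2 h3, e, rfl, h⟩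

lemma zone_o {R w : ℤ} (hw : 1 ≤ w) (hR : 16 * w ≤ R) :
    ∀ k < 17, ∀ e ∈ Wd (oc R w k), rp (64 * R) e ∈ EW R (Zo R) := by
  intro k hk e he
  have hb := mem_Bx.1 he
  have hpar := hb.2.2
  refine EW_mem (by omega) ?_ ?_ hpar ?_
  · clear hpar
    interval_cases k <;> simp [oc] at hb <;> omega
  · clear hpar
    interval_cases k <;> simp [oc] at hb <;> omega
  · unfold Zo
    clear hpar
    interval_cases k <;> simp [oc] at hb <;> omega

lemma zone_d {R w : ℤ} (hw : 1 ≤ w) (hR : 16 * w ≤ R) :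
    ∀ k < 36, ∀ e ∈ Wd (dc R w k), rp (64 * R) (e - (1, 1)) ∈ EW R (Zd R w) := by
  intro k hk e he
  have hb := mem_Bx.1 he
  have hpar := hb.2.2
  refine EW_mem (by omega) ?_ ?_ ?_ ?_
  · simp only [Prod.fst_sub, Prod.snd_sub]
    clear hpar
    interval_cases k <;> simp [dc] at hb <;> omega
  · simp only [Prod.fst_sub, Prod.snd_sub]
    clear hpar
    interval_cases k <;> simp [dc] at hb <;> omega
  · simp only [Prod.fst_sub, Prod.snd_sub]
    omega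
  · unfold Zd
    simp only [Prod.fst_sub, Prod.snd_sub]
    clear hpar
    interval_cases k <;> simp [dc] at hb <;> omega

/-! ### leaving the box through a corridor -/

lemma cor_gen {T η : Finset (ℤ × ℤ)} {A B C D : ℤ} {side P : ℤ × ℤ → Prop}
    (h1 : ∀ z z' : ℤ × ℤ, IsUnit4 (z' - z) → z + z' ∈ T → side z' → inB A B C D z')
    (h2 : ∀ z z' : ℤ × ℤ, IsUnit4 (z' - z) → z + z' ∈ T → inB A B C D z → ¬ inB A B C D z' → P z)
    (hη : η ⊆ T) {a q : ℤ × ℤ} (h : Co η a q) (ha : ¬ inB A B C D a) (hsa : ¬ side a)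
    (hq : side q) :
    ∃ z, inB A B C D z ∧ P z ∧ Co (η ∩ Bx A B C D) z q ∧ inB A B C D q := by
  have hqi : inB A B C D q := by
    rcases Relation.ReflTransGen.cases_tail h with h3 | ⟨z, -, h3⟩
    · rw [h3] at hq; exact absurd hq hsa
    · exact h1 z q h3.1 (hη h3.2) hq
  obtain ⟨z, z', hz, hz', had, hcx, -⟩ := exit_co (X := inB A B C D) h.symm hqi ha
  exact ⟨z, hz, h2 z z' had.1 (hη had.2) hz hz', (hcx.box (fun z hz => hz) hqi).symm, hqi⟩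

lemma mem_CR {R w : ℤ} {e : ℤ × ℤ} {i : Fin 4} (h : e ∈ CR R w i) :
    ((2 * (-R) ≤ e.1 ∧ e.1 ≤ 2 * R) ∧ (2 * (-R) ≤ e.2 ∧ e.2 ≤ 2 * R)) ∨
    (i = 0 ∧ (2 * R ≤ e.1 ∧ e.1 ≤ 2 * (R + 4 * w)) ∧ (2 * (-w) ≤ e.2 ∧ e.2 ≤ 2 * w)) ∨
    (i = 1 ∧ (2 * (-w) ≤ e.1 ∧ e.1 ≤ 2 * w) ∧ (2 * R ≤ e.2 ∧ e.2 ≤ 2 * (R + 4 * w))) ∨
    (i = 2 ∧ (2 * (-R - 4 * w) ≤ e.1 ∧ e.1 ≤ 2 * (-R)) ∧ (2 * (-w) ≤ e.2 ∧ e.2 ≤ 2 * w)) ∨
    (i = 3 ∧ (2 * (-w) ≤ e.1 ∧ e.1 ≤ 2 * w) ∧ (2 * (-R - 4 * w) ≤ e.2 ∧ e.2 ≤ 2 * (-R))) := by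
  unfold CR at h
  rw [mem_union] at h
  rcases h with h | h
  · rw [BB, mem_Bx] at h
    left; exact ⟨h.1, h.2.1⟩
  · fin_cases i
    · have h' := mem_Bx.1 h
      right; left; exact ⟨rfl, h'.1, h'.2.1⟩
    · have h' := mem_Bx.1 h
      right; right; left; exact ⟨rfl, h'.1, h'.2.1⟩
    · have h' := mem_Bx.1 h
      right; right; right; left; exact ⟨rfl, h'.1, h'.2.1⟩
    · have h' := mem_Bx.1 h
      right; right; right; right; exact ⟨rfl, h'.1, h'.2.1⟩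

lemma cor_E {R w : ℤ} (hw : 1 ≤ w) (hR : 16 * w ≤ R) {η : Finset (ℤ × ℤ)} (hη : η ⊆ CR R w 0)
    {a q : ℤ × ℤ} (h : Co η a q) (ha : |a.1| ≤ 1 ∧ |a.2| ≤ 1) (hq : q.1 = R + 4 * w) :
    ∃ z, inB (R + 1) (R + 4 * w) (-w) w z ∧ z.1 = R + 1 ∧
      Co (η ∩ Bx (R + 1) (R + 4 * w) (-w) w) z q ∧ inB (R + 1) (R + 4 * w) (-w) w q := by
  have h3 := abs_le.1 ha.1
  have h4 := abs_le.1 ha.2
  refine cor_gen (side := fun z => z.1 = R + 4 * w) (P := fun z => z.1 = R + 1) ?_ ?_ hη h ?_ ?_ hq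
  · intro z z' hz hT hs
    have h5 := mem_CR hT
    have h6 := unit_cases hz
    simp only [Prod.fst_add, Prod.snd_add] at h5
    have hs : z'.1 = R + 4 * w := hs
    unfold inB
    rcases h5 with h5 | h5 | h5 | h5 | h5
    · omega
    · omega
    · exact absurd h5.1 (by decide)
    · exact absurd h5.1 (by decide)
    · exact absurd h5.1 (by decide)
  · intro z z' hz hT hi hi'
    have h5 := mem_CR hT
    have h6 := unit_cases hz
    simp only [Prod.fst_add, Prod.snd_add] at h5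
    unfold inB at hi hi'
    show z.1 = R + 1
    rcases h5 with h5 | h5 | h5 | h5 | h5
    · omega
    · omega
    · exact absurd h5.1 (by decide)
    · exact absurd h5.1 (by decide)
    · exact absurd h5.1 (by decide)
  · unfold inB; omega
  · show ¬ (a.1 = R + 4 * w)
    omega

lemma cor_N {R w : ℤ} (hw : 1 ≤ w) (hR : 16 * w ≤ R) {η : Finset (ℤ × ℤ)} (hη : η ⊆ CR R w 1)
    {a q : ℤ × ℤ} (h : Co η a q) (ha : |a.1| ≤ 1 ∧ |a.2| ≤ 1) (hq : q.2 = R + 4 * w) :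
    ∃ z, inB (-w) w (R + 1) (R + 4 * w) z ∧ z.2 = R + 1 ∧
      Co (η ∩ Bx (-w) w (R + 1) (R + 4 * w)) z q ∧ inB (-w) w (R + 1) (R + 4 * w) q := by
  have h3 := abs_le.1 ha.1
  have h4 := abs_le.1 ha.2
  refine cor_gen (side := fun z => z.2 = R + 4 * w) (P := fun z => z.2 = R + 1) ?_ ?_ hη h ?_ ?_ hq
  · intro z z' hz hT hs
    have h5 := mem_CR hT
    have h6 := unit_cases hz
    simp only [Prod.fst_add, Prod.snd_add] at h5
    have hs : z'.2 = R + 4 * w := hs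
    unfold inB
    rcases h5 with h5 | h5 | h5 | h5 | h5
    · omega
    · exact absurd h5.1 (by decide)
    · omega
    · exact absurd h5.1 (by decide)
    · exact absurd h5.1 (by decide)
  · intro z z' hz hT hi hi'
    have h5 := mem_CR hT
    have h6 := unit_cases hz
    simp only [Prod.fst_add, Prod.snd_add] at h5
    unfold inB at hi hi'
    show z.2 = R + 1
    rcases h5 with h5 | h5 | h5 | h5 | h5
    · omega
    · exact absurd h5.1 (by decide)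
    · omega
    · exact absurd h5.1 (by decide)
    · exact absurd h5.1 (by decide)
  · unfold inB; omega
  · show ¬ (a.2 = R + 4 * w)
    omega

lemma cor_W {R w : ℤ} (hw : 1 ≤ w) (hR : 16 * w ≤ R) {η : Finset (ℤ × ℤ)} (hη : η ⊆ CR R w 2)
    {a q : ℤ × ℤ} (h : Co η a q) (ha : |a.1| ≤ 1 ∧ |a.2| ≤ 1) (hq : q.1 = -R - 4 * w) :
    ∃ z, inB (-R - 4 * w) (-R - 1) (-w) w z ∧ z.1 = -R - 1 ∧
      Co (η ∩ Bx (-R - 4 * w) (-R - 1) (-w) w) z q ∧ inB (-R - 4 * w) (-R - 1) (-w) w q := by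
  have h3 := abs_le.1 ha.1
  have h4 := abs_le.1 ha.2
  refine cor_gen (side := fun z => z.1 = -R - 4 * w) (P := fun z => z.1 = -R - 1) ?_ ?_ hη h ?_ ?_
    hq
  · intro z z' hz hT hs
    have h5 := mem_CR hT
    have h6 := unit_cases hz
    simp only [Prod.fst_add, Prod.snd_add] at h5
    have hs : z'.1 = -R - 4 * w := hs
    unfold inB
    rcases h5 with h5 | h5 | h5 | h5 | h5
    · omega
    · exact absurd h5.1 (by decide)
    · exact absurd h5.1 (by decide)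
    · omega
    · exact absurd h5.1 (by decide)
  · intro z z' hz hT hi hi'
    have h5 := mem_CR hT
    have h6 := unit_cases hz
    simp only [Prod.fst_add, Prod.snd_add] at h5
    unfold inB at hi hi'
    show z.1 = -R - 1
    rcases h5 with h5 | h5 | h5 | h5 | h5
    · omega
    · exact absurd h5.1 (by decide)
    · exact absurd h5.1 (by decide)
    · omega
    · exact absurd h5.1 (by decide)
  · unfold inB; omega
  · show ¬ (a.1 = -R - 4 * w)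
    omega

lemma cor_S {R w : ℤ} (hw : 1 ≤ w) (hR : 16 * w ≤ R) {η : Finset (ℤ × ℤ)} (hη : η ⊆ CR R w 3)
    {a q : ℤ × ℤ} (h : Co η a q) (ha : |a.1| ≤ 1 ∧ |a.2| ≤ 1) (hq : q.2 = -R - 4 * w) :
    ∃ z, inB (-w) w (-R - 4 * w) (-R - 1) z ∧ z.2 = -R - 1 ∧
      Co (η ∩ Bx (-w) w (-R - 4 * w) (-R - 1)) z q ∧ inB (-w) w (-R - 4 * w) (-R - 1) q := by
  have h3 := abs_le.1 ha.1
  have h4 := abs_le.1 ha.2
  refine cor_gen (side := fun z => z.2 = -R - 4 * w) (P := fun z => z.2 = -R - 1) ?_ ?_ hη h ?_ ?_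
    hq
  · intro z z' hz hT hs
    have h5 := mem_CR hT
    have h6 := unit_cases hz
    simp only [Prod.fst_add, Prod.snd_add] at h5
    have hs : z'.2 = -R - 4 * w := hs
    unfold inB
    rcases h5 with h5 | h5 | h5 | h5 | h5
    · omega
    · exact absurd h5.1 (by decide)
    · exact absurd h5.1 (by decide)
    · exact absurd h5.1 (by decide)
    · omega
  · intro z z' hz hT hi hi'
    have h5 := mem_CR hT
    have h6 := unit_cases hz
    simp only [Prod.fst_add, Prod.snd_add] at h5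
    unfold inB at hi hi'
    show z.2 = -R - 1
    rcases h5 with h5 | h5 | h5 | h5 | h5
    · omega
    · exact absurd h5.1 (by decide)
    · exact absurd h5.1 (by decide)
    · exact absurd h5.1 (by decide)
    · omega
  · unfold inB; omega
  · show ¬ (a.2 = -R - 4 * w)
    omega

/-! ### the connection through the net -/

lemma VP_shift {S : Set (ℤ × ℤ)} {n : ℤ} (hS : ∀ e, e ∈ S → e + (2 * n, -(2 * n)) ∈ S)
    {a b c d : ℤ} {p : ℤ × ℤ} (h : VP S a b c d p) :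
    VP S (a + n) (b + n) (c - n) (d - n) (p + (n, -n)) := by
  obtain ⟨ω1, q, a1, a2, a3, a4, a5, a6⟩ := h
  refine ⟨ω1.map (syT (n, -n)).G, q + (n, -n), ?_, ?_, ?_, ?_, ?_, ?_⟩
  · intro e he
    rw [mem_map] at he
    obtain ⟨x, hx, rfl⟩ := he
    have := hS x (a1 x hx)
    have e1 : (syT (n, -n)).G x = x + (2 * n, -(2 * n)) := by
      simp only [syT, Function.Embedding.coeFn_mk]
      refine Prod.ext ?_ ?_ <;> simp only [Prod.fst_add, Prod.snd_add]; ring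
    rw [e1]; exact this
  · intro e he
    rw [mem_map] at he
    obtain ⟨x, hx, rfl⟩ := he
    have h3 := mem_Bx.1 (a2 hx)
    rw [mem_Bx]
    simp only [syT, Function.Embedding.coeFn_mk]
    omega
  · unfold inB at a3 ⊢
    simp only [Prod.fst_add, Prod.snd_add]
    omega
  · simp only [Prod.snd_add]; omega
  · simp only [Prod.snd_add]; omega
  · exact ((syT (n, -n)).co_iff ω1 p q).2 a6

lemma sev_hp {S : Set (ℤ × ℤ)} {a b c d : ℤ} (h : SEv (true, a, b, c, d) S) : ∃ p, HP S a b c d p :=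
  h.1 rfl

lemma sev_vp {S : Set (ℤ × ℤ)} {a b c d : ℤ} (h : SEv (false, a, b, c, d) S) :
    ∃ p, VP S a b c d p :=
  h.2 rfl

/-- a dual circuit of the net -/
lemma circ {S : Set (ℤ × ℤ)} {R w y0 va vb : ℤ} (hw : 1 ≤ w) (hR : 16 * w ≤ R)
    (hS : ∀ e, e ∈ S → e + (2 * (64 * R), -(2 * (64 * R))) ∈ S)
    (hH : ∀ i : ℕ, i < 8 → SEv (true, -(8 * R) + 8 * R * (i : ℤ), 8 * R + 8 * R * (i : ℤ),
      y0 - 8 * R * (i : ℤ), y0 + 8 * R - 8 * R * (i : ℤ)) S)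
    (hV : ∀ i : ℕ, i < 8 → SEv (false, 8 * R * (i : ℤ), 8 * R + 8 * R * (i : ℤ),
      y0 - 8 * R - 8 * R * (i : ℤ), y0 + 8 * R - 8 * R * (i : ℤ)) S)
    {r : ℤ × ℤ} (hr : VP S (-w) w va vb r) (hva : va ≤ y0) (hvb : y0 + 8 * R ≤ vb) :
    CoS S r (r + (64 * R, -(64 * R))) :=
  wind_chain' (by omega) rfl hS (fun i hi => sev_hp (hH i hi)) (fun i hi => sev_vp (hV i hi)) (by omega)
    (by omega) hr hva hvb

/-- the open connection around the cylinder -/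
lemma open_chain {S : Set (ℤ × ℤ)} {R w : ℤ} (hw : 1 ≤ w) (hR : 16 * w ≤ R)
    (hS : ∀ e, e ∈ S → e + (2 * (64 * R), -(2 * (64 * R))) ∈ S)
    (hE : ∀ k < 17, SEv (oc R w k) S) {z q z' q' : ℤ × ℤ}
    (hz : HP S (R + 1) (R + 4 * w) (-w) w z) (hzq : CoS S z q)
    (hz' : HP S (-R - 4 * w) (-R - 1) (-w) w z') (hzq' : CoS S z' q') :
    CoS S q (q' + (64 * R, -(64 * R))) := by
  have hV : ∀ i : ℕ, i < 6 → ∃ p, VP S (4 * R + 8 * R * (i : ℤ)) (12 * R + 8 * R * (i : ℤ))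
      (-(15 * R) - 8 * R * (i : ℤ)) (R - 8 * R * (i : ℤ)) p := by
    intro i hi
    have := hE (5 + i) (by omega)
    have e1 : ¬ (5 + i = 0) := by omega
    have e2 : ¬ (5 + i = 1) := by omega
    have e3 : ¬ (5 + i = 2) := by omega
    have e4 : ¬ (5 + i = 3) := by omega
    have e5 : ¬ (5 + i = 4) := by omega
    have e6 : 5 + i < 11 := by omega
    have e7 : 5 + i - 5 = i := by omega
    unfold oc at this
    rw [if_neg e1, if_neg e2, if_neg e3, if_neg e4, if_neg e5, if_pos e6, e7] at this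
    exact sev_vp this
  have hH : ∀ i : ℕ, i < 6 → ∃ p, HP S (4 * R + 8 * R * (i : ℤ)) (20 * R + 8 * R * (i : ℤ))
      (-(15 * R) - 8 * R * (i : ℤ)) (-(7 * R) - 8 * R * (i : ℤ)) p := by
    intro i hi
    have := hE (11 + i) (by omega)
    have e1 : ¬ (11 + i = 0) := by omega
    have e2 : ¬ (11 + i = 1) := by omega
    have e3 : ¬ (11 + i = 2) := by omega
    have e4 : ¬ (11 + i = 3) := by omega
    have e5 : ¬ (11 + i = 4) := by omega
    have e6 : ¬ (11 + i < 11) := by omega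
    have e7 : 11 + i - 11 = i := by omega
    unfold oc at this
    rw [if_neg e1, if_neg e2, if_neg e3, if_neg e4, if_neg e5, if_neg e6, e7] at this
    exact sev_hp this
  obtain ⟨p0, hp0⟩ : ∃ p, VP S (R + 1) (R + 4 * w) (-w) w p := sev_vp (hE 0 (by norm_num))
  obtain ⟨p1, hp1⟩ : ∃ p, HP S (R + 1) (12 * R) (-w) w p := sev_hp (hE 1 (by norm_num))
  obtain ⟨p2, hp2⟩ : ∃ p, VP S (-R - 4 * w) (-R - 1) (-w) w p := sev_vp (hE 2 (by norm_num))
  obtain ⟨p3, hp3⟩ : ∃ p, HP S (-(12 * R)) (-R - 1) (-w) w p := sev_hp (hE 3 (by norm_num))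
  obtain ⟨p4, hp4⟩ : ∃ p, VP S (-(12 * R)) (-(4 * R)) (-R) (18 * R) p := sev_vp (hE 4 (by norm_num))
  have c0 : CoS S z p0 := hz.meet hp0 (by omega) (by omega) (by omega) (by omega)
  have c1 : CoS S p1 p0 := hp1.meet hp0 (by omega) (by omega) (by omega) (by omega)
  have c2 : CoS S z' p2 := hz'.meet hp2 (by omega) (by omega) (by omega) (by omega)
  have c3 : CoS S p3 p2 := hp3.meet hp2 (by omega) (by omega) (by omega) (by omega)
  have c4 : CoS S p3 p4 := hp3.meet hp4 (by omega) (by omega) (by omega) (by omega)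
  -- the staircase
  have key : ∀ i : ℕ, i < 6 → ∀ p, HP S (4 * R + 8 * R * (i : ℤ)) (20 * R + 8 * R * (i : ℤ))
      (-(15 * R) - 8 * R * (i : ℤ)) (-(7 * R) - 8 * R * (i : ℤ)) p → CoS S p1 p := by
    intro i
    induction i with
    | zero =>
      intro hi p hp
      obtain ⟨v, hv⟩ := hV 0 hi
      rw [Nat.cast_zero, mul_zero] at hp hv
      have d1 := hp1.meet hv (by omega) (by omega) (by omega) (by omega)
      have d2 := hp.meet hv (by omega) (by omega) (by omega) (by omega)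
      exact d1.trans d2.symm
    | succ i ih =>
      intro hi p hp
      obtain ⟨p', hp'⟩ := hH i (by omega)
      obtain ⟨v, hv⟩ := hV (i + 1) hi
      have g1 : 8 * R * ((i + 1 : ℕ) : ℤ) = 8 * R * i + 8 * R := by push_cast; ring
      rw [g1] at hp hv
      have d1 := hp'.meet hv (by omega) (by omega) (by omega) (by omega)
      have d2 := hp.meet hv (by omega) (by omega) (by omega) (by omega)
      exact (ih (by omega) p' hp').trans (d1.trans d2.symm)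
  obtain ⟨p5, hp5⟩ := hH 5 (by norm_num)
  have c5 := key 5 (by norm_num) p5 hp5
  have hp4' := VP_shift hS hp4
  have e5 : (8 : ℤ) * R * ((5 : ℕ) : ℤ) = 40 * R := by push_cast; ring
  rw [e5] at hp5
  have c6 : CoS S p5 (p4 + (64 * R, -(64 * R))) :=
    hp5.meet hp4' (by omega) (by omega) (by omega) (by omega)
  have c7 : CoS S p4 q' := c4.symm.trans (c3.trans (c2.symm.trans hzq'))
  have c8 := CoS.shift hS c7
  exact hzq.symm.trans (c0.trans (c1.symm.trans (c5.trans (c6.trans c8))))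

end Pool.Agent.H65.Four
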