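import Mathlib
import Pool.Agent.H65.Four.Net

set_option autoImplicit false
open Finset

/-! The cross and the pivotal event on the cylinder. -/

namespace Pool.Agent.H65.Four

open Pool.Agent.H75.Perc hiding BE BB UU UU_mix sh
open Pool.Agent.H75.TwoArm
open Pool.Agent.H75.TwoArm.CorrAux (mem_du')
open Pool.Agent.H63.Perc (AdS CoS rp EC mem_EC pull mem_pull pull_sub pull_mono rp_sum rp_inj
  rp_mem_EC rp_shift co_toS Pr_pull tr mem_tr coins_tr coins_mono)
open Pool.Agent.H63.Bulk (PB mem_PB PB_shift BConf bulkMeasure phB phB_inj)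
open Pool.Agent.H65.Two
open Pool.Agent.H63.Four (Piv)

section

variable {R w : ℤ}

lemma rp_win (hw : 1 ≤ w) (hR : 16 * w ≤ R) {e e' : ℤ × ℤ} (he : e ∈ BB (R + 8 * w))
    (he' : e' ∈ BB (R + 8 * w)) (h : rp (64 * R) e = rp (64 * R) e') : e = e' := by
  rw [BB, mem_Bx] at he he'
  exact rp_eq h (by omega) (by omega)

lemma rp_win_mem (hw : 1 ≤ w) (hR : 16 * w ≤ R) {e : ℤ × ℤ} (he : e ∈ BB (R + 8 * w)) :
    rp (64 * R) e ∈ EC (64 * R) (90 * R) := by
  rw [BB, mem_Bx] at he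
  exact rp_mem_EC (by omega) (by omega) (by omega) he.2.2

lemma rp_e0 (hR : 1 ≤ R) : rp (64 * R) (1, 0) = (1, 0) := by
  unfold rp
  have : (1 : ℤ) % (2 * (64 * R)) = 1 := Int.emod_eq_of_lt (by omega) (by omega)
  simp [this]

lemma e0_win (hw : 1 ≤ w) (hR : 16 * w ≤ R) : ((1, 0) : ℤ × ℤ) ∈ BB (R + 8 * w) := by
  rw [BB, mem_Bx]; simp only; omega

lemma e0_Zo (hR : 1 ≤ R) : ((1, 0) : ℤ × ℤ) ∉ EW R (Zo R) := by
  rw [mem_EW]
  rintro ⟨-, e', h1, h2⟩
  unfold Zo at h2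
  have := rp_eq (n := 64 * R) (e1 := e') (e2 := (1, 0)) (by rw [h1, rp_e0 hR]) (by simp only; omega)
    (by simp only; omega)
  subst this
  simp only at h2
  omega

lemma e0_Zd (hw : 1 ≤ w) (hR : 16 * w ≤ R) : ((1, 0) : ℤ × ℤ) ∉ EW R (Zd R w) := by
  rw [mem_EW]
  rintro ⟨-, e', h1, h2⟩
  have h3 := rp_sum (64 * R) e'
  rw [h1] at h3
  simp only at h3
  unfold Zd at h2
  rcases h2 with h2 | h2 | h2
  · have := rp_eq (n := 64 * R) (e1 := e') (e2 := (1, 0)) (by rw [h1, rp_e0 (by omega)])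
      (by simp only; omega) (by simp only; omega)
    subst this
    simp only at h2
    omega
  · omega
  · omega

lemma win_open (hw : 1 ≤ w) (hR : 16 * w ≤ R) {ω : Finset (ℤ × ℤ)} {e : ℤ × ℤ}
    (he : e ∈ (pull (64 * R) (BB (R + 8 * w)) ω).erase (1, 0)) :
    e ∈ PB (64 * R) (ω.erase (1, 0)) := by
  rw [mem_erase, mem_pull] at he
  rw [mem_PB, mem_erase]
  refine ⟨fun h => he.1 (rp_win hw hR he.2.1 (e0_win hw hR) ?_), he.2.2⟩
  rw [h, rp_e0 (by omega)]

lemma win_dual (hw : 1 ≤ w) (hR : 16 * w ≤ R) {ω : Finset (ℤ × ℤ)} {x : ℤ × ℤ}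
    (hx : x ∈ du (BB (R + 8 * w)) (insert (1, 0) (pull (64 * R) (BB (R + 8 * w)) ω))) :
    x ∈ PD (64 * R) (EC (64 * R) (90 * R)) (insert (1, 0) ω) := by
  rw [mem_du', mem_insert, mem_pull] at hx
  rw [mem_PD, mem_insert]
  refine ⟨rp_win_mem hw hR hx.1, ?_⟩
  rintro (h | h)
  · exact hx.2 (Or.inl (rp_win hw hR hx.1 (e0_win hw hR) (by rw [h, rp_e0 (by omega)])))
  · exact hx.2 (Or.inr ⟨hx.1, h⟩)

lemma face_bd {a : ℤ × ℤ} (h : a = (0, 0) ∨ a = (1, 0) ∨ a = (1, 1)) : |a.1| ≤ 1 ∧ |a.2| ≤ 1 := by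
  rcases h with rfl | rfl | rfl <;> simp

/-- the deterministic part -/
theorem W4_of (hw : 1 ≤ w) (hR : 16 * w ≤ R) {ω : Finset (ℤ × ℤ)}
    (hCS : CS R w (pull (64 * R) (BB (R + 8 * w)) ω))
    (hO : ∀ k < 17, Ev (oc R w k) (pull (64 * R) (Wd (oc R w k)) ω))
    (hD : ∀ k < 36, Ev (dc R w k) (pulld (64 * R) (Wd (dc R w k))
      (du (EC (64 * R) (90 * R)) ω))) : W4 (64 * R) (EC (64 * R) (90 * R)) ω := by
  have hR1 : 1 ≤ R := by omega
  have hSo : ∀ k < 17, SEv (oc R w k) (PB (64 * R) (ω.erase (1, 0))) := by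
    intro k hk
    refine SEv_of (hO k hk) (fun e he hW => ?_)
    rw [mem_PB, mem_erase]
    refine ⟨fun h => ?_, (mem_pull.1 he).2⟩
    have := zone_o hw hR k hk e hW
    rw [h] at this
    exact e0_Zo hR1 this
  have hSd : ∀ k < 36, SEv (dc R w k) (PD (64 * R) (EC (64 * R) (90 * R)) (insert (1, 0) ω)) := by
    intro k hk
    refine SEv_of (hD k hk) (fun e he hW => ?_)
    rw [mem_pulld_du, mem_PD] at he
    rw [mem_PD, mem_insert]
    refine ⟨he.2.1, ?_⟩
    rintro (h | h)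
    · have := zone_d hw hR k hk e hW
      rw [h] at this
      exact e0_Zd hw hR this
    · exact he.2.2 h
  obtain ⟨a, b, f, g, q0, q1, q2, q3, hab, hfg, ⟨hq0, h0⟩, ⟨hq1, h1⟩, ⟨hq2, h2⟩, ⟨hq3, h3⟩⟩ := hCS
  -- open part
  have hopen : CoS (PB (64 * R) (ω.erase (1, 0))) a (b + (64 * R, -(64 * R))) := by
    obtain ⟨z, hz, hz1, hz2, hz3⟩ := cor_E hw hR inter_subset_right h0
      (face_bd (by rcases hab with h | h <;> simp [h.1])) hq0
    obtain ⟨z', hz', hz1', hz2', hz3'⟩ := cor_W hw hR inter_subset_right h2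
      (face_bd (by rcases hab with h | h <;> simp [h.2])) hq2
    have hsub : ∀ i : Fin 4, ∀ e ∈ ((pull (64 * R) (BB (R + 8 * w)) ω).erase (1, 0) ∩ CR R w i),
        e ∈ PB (64 * R) (ω.erase (1, 0)) := fun i e he => win_open hw hR (mem_inter.1 he).1
    refine open_chain hw hR PB_shift hSo (z := z) (z' := q2)
      ⟨_, q0, fun e he => hsub 0 e (mem_inter.1 he).1, inter_subset_right, hz, hz1, hq0, hz2⟩ ?_
      ⟨_, z', fun e he => hsub 2 e (mem_inter.1 he).1, inter_subset_right, hz3', hq2, hz1',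
        hz2'.symm⟩ ?_
    · exact (co_toS (fun e he => hsub 0 e (mem_inter.1 he).1) hz2).trans
        (co_toS (hsub 0) h0).symm
    · exact (co_toS (hsub 2) h2).symm
  -- dual part
  have hsubd : ∀ i : Fin 4, ∀ e ∈ (du (BB (R + 8 * w))
      (insert (1, 0) (pull (64 * R) (BB (R + 8 * w)) ω)) ∩ CR R w i),
      e ∈ PD (64 * R) (EC (64 * R) (90 * R)) (insert (1, 0) ω) :=
    fun i e he => win_dual hw hR (mem_inter.1 he).1
  have hN : CoS (PD (64 * R) (EC (64 * R) (90 * R)) (insert (1, 0) ω)) f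
      (f + (64 * R, -(64 * R))) := by
    obtain ⟨z, hz, hz1, hz2, hz3⟩ := cor_N hw hR inter_subset_right h1
      (face_bd (by rcases hfg with h | h <;> simp [h.1])) hq1
    obtain ⟨p, hp⟩ : ∃ p, HP (PD (64 * R) (EC (64 * R) (90 * R)) (insert (1, 0) ω)) (-w) w (R + 1)
      (R + 4 * w) p := sev_hp (hSd 0 (by norm_num))
    obtain ⟨r, hr⟩ : ∃ r, VP (PD (64 * R) (EC (64 * R) (90 * R)) (insert (1, 0) ω)) (-w) w (R + 1)
      (32 * R) r := sev_vp (hSd 1 (by norm_num))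
    have c1 := hp.meet (r := z) ⟨_, q1, fun e he => hsubd 1 e (mem_inter.1 he).1,
      inter_subset_right, hz, hz1, hq1, hz2⟩ (by omega) (by omega) (by omega) (by omega)
    have c2 := hp.meet hr (by omega) (by omega) (by omega) (by omega)
    have c3 := circ (y0 := 24 * R) hw hR PD_shift (by
      intro i hi
      have := hSd (4 + i) (by omega)
      have e1 : ¬ (4 + i = 0) := by omega
      have e2 : ¬ (4 + i = 1) := by omega
      have e3 : ¬ (4 + i = 2) := by omega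
      have e4 : ¬ (4 + i = 3) := by omega
      have e5 : 4 + i < 12 := by omega
      have e6 : 4 + i - 4 = i := by omega
      unfold dc at this
      rw [if_neg e1, if_neg e2, if_neg e3, if_neg e4, if_pos e5, e6] at this
      exact this) (by
      intro i hi
      have := hSd (12 + i) (by omega)
      have e1 : ¬ (12 + i = 0) := by omega
      have e2 : ¬ (12 + i = 1) := by omega
      have e3 : ¬ (12 + i = 2) := by omega
      have e4 : ¬ (12 + i = 3) := by omega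
      have e5 : ¬ (12 + i < 12) := by omega
      have e6 : 12 + i < 20 := by omega
      have e7 : 12 + i - 12 = i := by omega
      unfold dc at this
      rw [if_neg e1, if_neg e2, if_neg e3, if_neg e4, if_neg e5, if_pos e6, e7] at this
      exact this) hr (by omega) (by omega)
    have c4 : CoS (PD (64 * R) (EC (64 * R) (90 * R)) (insert (1, 0) ω)) f r :=
      (co_toS (hsubd 1) h1).trans
        ((co_toS (fun e he => hsubd 1 e (mem_inter.1 he).1) hz2).symm.trans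
          (c1.symm.trans c2))
    exact (c4.trans c3).trans (CoS.shift PD_shift c4).symm
  have hS : CoS (PD (64 * R) (EC (64 * R) (90 * R)) (insert (1, 0) ω)) g
      (g + (64 * R, -(64 * R))) := by
    obtain ⟨z, hz, hz1, hz2, hz3⟩ := cor_S hw hR inter_subset_right h3
      (face_bd (by rcases hfg with h | h <;> simp [h.2])) hq3
    obtain ⟨p, hp⟩ : ∃ p, HP (PD (64 * R) (EC (64 * R) (90 * R)) (insert (1, 0) ω)) (-w) w
      (-R - 4 * w) (-R - 1) p := sev_hp (hSd 2 (by norm_num))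
    obtain ⟨r, hr⟩ : ∃ r, VP (PD (64 * R) (EC (64 * R) (90 * R)) (insert (1, 0) ω)) (-w) w
      (-(32 * R)) (-R - 1) r := sev_vp (hSd 3 (by norm_num))
    have c1 := hp.meet (r := q3) ⟨_, z, fun e he => hsubd 3 e (mem_inter.1 he).1,
      inter_subset_right, hz3, hq3, hz1, hz2.symm⟩ (by omega) (by omega) (by omega) (by omega)
    have c2 := hp.meet hr (by omega) (by omega) (by omega) (by omega)
    have c3 := circ (y0 := -(32 * R)) hw hR PD_shift (by
      intro i hi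
      have := hSd (20 + i) (by omega)
      have e1 : ¬ (20 + i = 0) := by omega
      have e2 : ¬ (20 + i = 1) := by omega
      have e3 : ¬ (20 + i = 2) := by omega
      have e4 : ¬ (20 + i = 3) := by omega
      have e5 : ¬ (20 + i < 12) := by omega
      have e6 : ¬ (20 + i < 20) := by omega
      have e7 : 20 + i < 28 := by omega
      have e8 : 20 + i - 20 = i := by omega
      unfold dc at this
      rw [if_neg e1, if_neg e2, if_neg e3, if_neg e4, if_neg e5, if_neg e6, if_pos e7, e8] at this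
      exact this) (by
      intro i hi
      have := hSd (28 + i) (by omega)
      have e1 : ¬ (28 + i = 0) := by omega
      have e2 : ¬ (28 + i = 1) := by omega
      have e3 : ¬ (28 + i = 2) := by omega
      have e4 : ¬ (28 + i = 3) := by omega
      have e5 : ¬ (28 + i < 12) := by omega
      have e6 : ¬ (28 + i < 20) := by omega
      have e7 : ¬ (28 + i < 28) := by omega
      have e8 : 28 + i - 28 = i := by omega
      unfold dc at this
      rw [if_neg e1, if_neg e2, if_neg e3, if_neg e4, if_neg e5, if_neg e6, if_neg e7, e8] at this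
      exact this) hr (by omega) (by omega)
    have c4 : CoS (PD (64 * R) (EC (64 * R) (90 * R)) (insert (1, 0) ω)) g r :=
      (co_toS (hsubd 3) h3).trans (c1.symm.trans c2)
    exact (c4.trans c3).trans (CoS.shift PD_shift c4).symm
  refine ⟨?_, ?_, ?_⟩
  · rcases hab with ⟨rfl, rfl⟩ | ⟨rfl, rfl⟩
    · exact Or.inl hopen
    · exact Or.inr hopen
  · rcases hfg with ⟨rfl, rfl⟩ | ⟨rfl, rfl⟩
    · exact hN
    · exact hS
  · rcases hfg with ⟨rfl, rfl⟩ | ⟨rfl, rfl⟩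
    · exact hS
    · exact hN

/-! ### monotonicity -/

lemma open_E2 (hw : 1 ≤ w) (hR : 16 * w ≤ R) {e : ℤ × ℤ} {i : Fin 4} (hi : i = 0 ∨ i = 2)
    (he : e ∈ CR R w i) (hb : e ∈ BB (R + 8 * w)) : rp (64 * R) e ∉ EW R (Zd R w) := by
  rw [mem_EW]
  rintro ⟨-, e', h1, h2⟩
  have h3 := rp_sum (64 * R) e'
  have h4 := rp_sum (64 * R) e
  rw [h1] at h3
  rw [BB, mem_Bx] at hb
  have h5 := mem_CR he
  unfold Zd at h2
  rcases h2 with h2 | h2 | h2
  · have h6 := rp_eq h1 (by omega) (by omega)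
    subst h6
    rcases h5 with h5 | h5 | h5 | h5 | h5
    · omega
    · omega
    · rcases hi with rfl | rfl <;> exact absurd h5.1 (by decide)
    · omega
    · rcases hi with rfl | rfl <;> exact absurd h5.1 (by decide)
  · omega
  · omega

lemma dual_E1 (hw : 1 ≤ w) (hR : 16 * w ≤ R) {x : ℤ × ℤ} {i : Fin 4} (hi : i = 1 ∨ i = 3)
    (he : x ∈ CR R w i) : rp (64 * R) (x - (1, 1)) ∉ EW R (Zo R) := by
  rw [mem_EW]
  rintro ⟨-, e', h1, h2⟩
  have h5 := mem_CR he
  unfold Zo at h2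
  have h7 : -(2 * R + 1) ≤ (x - (1, 1)).1 ∧ (x - (1, 1)).1 ≤ 2 * R - 1 := by
    simp only [Prod.fst_sub]
    rcases h5 with h5 | h5 | h5 | h5 | h5
    · omega
    · rcases hi with rfl | rfl <;> exact absurd h5.1 (by decide)
    · omega
    · rcases hi with rfl | rfl <;> exact absurd h5.1 (by decide)
    · omega
  have h6 := rp_eq h1 (by omega) (by omega)
  rw [h6] at h2
  omega

lemma CS_MM (hw : 1 ≤ w) (hR : 16 * w ≤ R) :
    MM (EC (64 * R) (90 * R)) (EW R (Zo R)) (EW R (Zd R w))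
      (fun ω => CS R w (pull (64 * R) (BB (R + 8 * w)) ω)) := by
  rintro ω ω₁ - - h1 h2 ⟨a, b, f, g, q0, q1, q2, q3, hab, hfg, ⟨hq0, c0⟩, ⟨hq1, c1⟩, ⟨hq2, c2⟩,
    ⟨hq3, c3⟩⟩
  have ho : ∀ i : Fin 4, (i = 0 ∨ i = 2) →
      (pull (64 * R) (BB (R + 8 * w)) ω).erase (1, 0) ∩ CR R w i ⊆
      (pull (64 * R) (BB (R + 8 * w)) ω₁).erase (1, 0) ∩ CR R w i := by
    intro i hi e he
    rw [mem_inter, mem_erase, mem_pull] at he ⊢
    obtain ⟨⟨e1, e2, e3⟩, e4⟩ := he
    exact ⟨⟨e1, e2, h1 _ e3 (open_E2 hw hR hi e4 e2)⟩, e4⟩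
  have hd : ∀ i : Fin 4, (i = 1 ∨ i = 3) →
      du (BB (R + 8 * w)) (insert (1, 0) (pull (64 * R) (BB (R + 8 * w)) ω)) ∩ CR R w i ⊆
      du (BB (R + 8 * w)) (insert (1, 0) (pull (64 * R) (BB (R + 8 * w)) ω₁)) ∩ CR R w i := by
    intro i hi x hx
    rw [mem_inter, mem_du', mem_insert, mem_pull] at hx ⊢
    obtain ⟨⟨e1, e2⟩, e3⟩ := hx
    refine ⟨⟨e1, ?_⟩, e3⟩
    rintro (h | ⟨-, h⟩)
    · exact e2 (Or.inl h)
    · exact e2 (Or.inr ⟨e1, h2 _ h (dual_E1 hw hR hi e3)⟩)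
  exact ⟨a, b, f, g, q0, q1, q2, q3, hab, hfg, ⟨hq0, c0.mono (ho 0 (Or.inl rfl))⟩,
    ⟨hq1, c1.mono (hd 1 (Or.inl rfl))⟩, ⟨hq2, c2.mono (ho 2 (Or.inr rfl))⟩,
    ⟨hq3, c3.mono (hd 3 (Or.inr rfl))⟩⟩

/-- the event of the net -/
def NT (R w : ℤ) (ω : Finset (ℤ × ℤ)) : Prop :=
  (∀ k ∈ range 17, Ev (oc R w k) (pull (64 * R) (Wd (oc R w k)) ω)) ∧
  (∀ k ∈ range 36, Ev (dc R w k) (pulld (64 * R) (Wd (dc R w k)) (du (EC (64 * R) (90 * R)) ω)))

lemma NT_of (hw : 1 ≤ w) (hR : 16 * w ≤ R) {ω ω₁ : Finset (ℤ × ℤ)}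
    (h1 : ∀ e ∈ EW R (Zo R), e ∈ ω → e ∈ ω₁) (h2 : ∀ e ∈ EW R (Zd R w), e ∈ ω₁ → e ∈ ω)
    (h : NT R w ω) : NT R w ω₁ := by
  refine ⟨fun k hk => Ev_inc _ _ _ ?_ (h.1 k hk), fun k hk => Ev_inc _ _ _ ?_ (h.2 k hk)⟩
  · intro e he
    rw [mem_pull] at he ⊢
    exact ⟨he.1, h1 _ (zone_o hw hR k (mem_range.1 hk) e he.1) he.2⟩
  · intro e he
    rw [mem_pulld_du, mem_PD] at he ⊢
    exact ⟨he.1, he.2.1, fun h' => he.2.2 (h2 _ (zone_d hw hR k (mem_range.1 hk) e he.1) h')⟩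

end

/-- probability of the net -/
theorem NT_prob (N : ℕ) : ∃ q : ℝ, 0 < q ∧ ∀ w R : ℤ, 1 ≤ w → 16 * w ≤ R → R ≤ N * w →
    q ≤ Pr (EC (64 * R) (90 * R)) (NT R w) := by
  obtain ⟨c, hc, hfc⟩ := hc_ratio (40 * N)
  refine ⟨c ^ 53, by positivity, ?_⟩
  intro w R hw hR hN
  have hlow : ∀ x h : ℤ, 0 ≤ x → x ≤ 40 * R → w ≤ h → c ≤ fc x h := by
    intro x h h1 h2 h3
    refine hfc x h h1 (by omega) ?_
    push_cast
    have e1 : (40 * (N : ℤ)) * w ≤ (40 * N) * h := mul_le_mul_of_nonneg_left h3 (by positivity)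
    have e2 : (40 * (N : ℤ)) * w = 40 * (N * w) := by ring
    omega
  have key := Pr_two_colours (EW_sub R (Zo R)) (EW_sub R (Zd R w)) (EW_disj hw hR) (range 17)
    (range 36) (fun k ω => Ev (oc R w k) (pull (64 * R) (Wd (oc R w k)) ω))
    (fun k D => Ev (dc R w k) (pulld (64 * R) (Wd (dc R w k)) D))
    (fun k _ ω ω' h h' => Ev_inc _ _ _ (pull_mono h) h')
    (fun k _ ω ω' h h' => Ev_inc _ _ _ (pulld_mono h) h')
    (fun k hk ω h => by
      rw [pull_inter (zone_o hw hR k (mem_range.1 hk))]; exact h)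
    (fun k hk ω h => by
      rw [pulld_inter (zone_d hw hR k (mem_range.1 hk))]; exact h)
  refine le_trans ?_ key
  have p1 : c ^ 17 ≤ ∏ k ∈ range 17, Pr (EC (64 * R) (90 * R)) (fun ω =>
      Ev (oc R w k) (pull (64 * R) (Wd (oc R w k)) ω)) := by
    have := Finset.prod_le_prod (s := range 17) (f := fun _ => c)
      (g := fun k => Pr (EC (64 * R) (90 * R)) (fun ω =>
      Ev (oc R w k) (pull (64 * R) (Wd (oc R w k)) ω)))
      (fun _ _ => hc.le) (fun k hk => by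
        obtain ⟨g1, g2, g3, g4, g5⟩ := oc_geo hw hR k (mem_range.1 hk)
        rw [Pr_Ev (by omega) _ g1 (by omega) g3]
        split_ifs with hb
        · obtain ⟨a1, a2, a3⟩ := g4 hb
          exact hlow _ _ a1 a2 a3
        · obtain ⟨a1, a2, a3⟩ := g5 (by simpa using hb)
          exact hlow _ _ a1 a2 a3)
    rwa [prod_const, card_range] at this
  have p2 : c ^ 36 ≤ ∏ k ∈ range 36, Pr (EC (64 * R) (90 * R)) (fun ω =>
      Ev (dc R w k) (pulld (64 * R) (Wd (dc R w k)) (du (EC (64 * R) (90 * R)) ω))) := by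
    have := Finset.prod_le_prod (s := range 36) (f := fun _ => c)
      (g := fun k => Pr (EC (64 * R) (90 * R)) (fun ω =>
      Ev (dc R w k) (pulld (64 * R) (Wd (dc R w k)) (du (EC (64 * R) (90 * R)) ω))))
      (fun _ _ => hc.le) (fun k hk => by
        obtain ⟨g1, g2, g3, g4, g5⟩ := dc_geo hw hR k (mem_range.1 hk)
        rw [Pr_Evd (by omega) _ g1 g2 g3]
        split_ifs with hb
        · obtain ⟨a1, a2, a3⟩ := g4 hb
          exact hlow _ _ a1 a2 a3
        · obtain ⟨a1, a2, a3⟩ := g5 (by simpa using hb)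
          exact hlow _ _ a1 a2 a3)
    rwa [prod_const, card_range] at this
  calc c ^ 53 = c ^ 17 * c ^ 36 := by ring
    _ ≤ _ := mul_le_mul p1 p2 (by positivity) (le_trans (by positivity) p1)

/-- **the cross and the pivotal event of the cylinder** -/
theorem CS_le_piv : ∀ N : ℕ, ∃ C : ℝ, ∀ w R : ℤ, 1 ≤ w → 16 * w ≤ R → R ≤ N * w → ∀ n : ℕ,
    (n : ℤ) = 64 * R → Pr (BB (R + 8 * w)) (CS R w) ≤
      C * ((bulkMeasure n) {ω | Piv n (0, 0) true ω}).toReal := by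
  intro N
  obtain ⟨q, hq, hNT⟩ := NT_prob N
  refine ⟨1 / q, ?_⟩
  intro w R hw hR hN n hn
  have h1 := hNT w R hw hR hN
  have h2 : Pr (EC (64 * R) (90 * R)) (fun ω => CS R w (pull (64 * R) (BB (R + 8 * w)) ω)) =
      Pr (BB (R + 8 * w)) (CS R w) := by
    unfold pull
    refine Pr_pull ?_ (fun e he => rp_win_mem hw hR he) (CS R w)
    intro e he e' he' h
    exact rp_win hw hR (mem_coe.1 he) (mem_coe.1 he') h
  have h3 := harris_mixed (EW_sub R (Zo R)) (EW_sub R (Zd R w)) (EW_disj hw hR) (CS_MM hw hR)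
    (M := NT R w) (by
      intro ω ω₁ _ _ h4 h5 h6
      refine NT_of hw hR (fun e he he' => h4 e he' ?_) (fun e he he' => h5 e he' ?_) h6
      · exact fun h => (Finset.disjoint_left.1 (EW_disj hw hR)) he h
      · exact fun h => (Finset.disjoint_left.1 (EW_disj hw hR)) h he) (by
      intro ω ω₁ _ _ h4 h5
      exact NT_of hw hR (fun e he he' => (h4 e (mem_union_left _ he)).1 he')
        (fun e he he' => (h4 e (mem_union_right _ he)).2 he') h5)
  have h4 : Pr (EC (64 * R) (90 * R)) (fun ω => CS R w (pull (64 * R) (BB (R + 8 * w)) ω) ∧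
      NT R w ω) ≤ Pr (EC (64 * R) (90 * R)) (W4 (64 * R) (EC (64 * R) (90 * R))) := by
    apply Pr_mono
    rintro ω _ ⟨h5, h6⟩
    exact W4_of hw hR h5 (fun k hk => h6.1 k (mem_range.2 hk))
      (fun k hk => h6.2 k (mem_range.2 hk))
  have h5 : Pr (EC (64 * R) (90 * R)) (W4 (64 * R) (EC (64 * R) (90 * R))) ≤
      ((bulkMeasure n) {ω | Piv n (0, 0) true ω}).toReal := by
    rw [← hn]
    rw [← coins_tr (phB_inj n (90 * R)) (W4 n (EC n (90 * R)))]
    exact coins_mono (fun ω hω => piv_of_W4 (by omega) (by omega) hω)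
  rw [h2] at h3
  have h6 : Pr (BB (R + 8 * w)) (CS R w) * q ≤ ((bulkMeasure n) {ω | Piv n (0, 0) true ω}).toReal :=
    (mul_le_mul_of_nonneg_left h1 (Pr_nonneg _ _)).trans (h3.trans (h4.trans h5))
  rw [div_mul_eq_mul_div, one_mul, le_div_iff₀ hq]
  exact h6

end Pool.Agent.H65.Four
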